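import Pool.Agent.J4H27.ML.Sp

/-!
# Products of pairwise non-isogenous simple abelian varieties: clusters at two different scales
-/

set_option autoImplicit false
set_option linter.unusedSectionVars false

open MvPolynomial Pool.Agent.TH954.X Pool.Agent.TH954.Z

namespace Pool.Agent.J4H27.ML

section grp

variable {K : Type} [Field K] {n β : ℕ} {A : Fin β → AbV K n} {F : Type} [Field F] [Algebra K F]

lemma noeth {Z : Set (Bp A F)} (hZ : Zc Z ⊆ Z) (g : Bp A F) (hg : ∀ p ∈ Z, p + g ∈ Z) :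
    ∀ p ∈ Z, p - g ∈ Z := by
  let Zm : ℕ → Set (Bp A F) := fun m => {p | p - m • g ∈ Z}
  let I : ℕ → Ideal (MvPolynomial (Fin β × Fin n) F) := fun m =>
    Ideal.span {Φ | (∃ δ, MH δ Φ) ∧ Van (Zm m) Φ}
  have hstep : ∀ m, Zm (m + 1) ⊆ Zm m := by
    intro m p hp
    have h1 := hg _ hp
    have h2 : p - (m + 1) • g + g = p - m • g := by
      rw [add_smul, one_smul]
      abel
    rw [h2] at h1
    exact h1
  have hmono : Monotone I := by
    refine monotone_nat_of_le_succ (fun m => Ideal.span_mono ?_)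
    rintro Φ ⟨h1, h2⟩
    exact ⟨h1, fun p hp => h2 p (hstep m hp)⟩
  obtain ⟨N, hN⟩ := (monotone_stabilizes_iff_noetherian (R := MvPolynomial (Fin β × Fin n) F)
    (M := MvPolynomial (Fin β × Fin n) F)).2 inferInstance ⟨I, hmono⟩
  have hI : I N = I (N + 1) := hN (N + 1) (Nat.le_succ N)
  intro p hp
  have h1 : p + N • g ∈ Zc (Zm (N + 1)) := by
    intro Φ δ hΦ hV
    have h2 : Φ ∈ I N := by
      rw [hI]
      exact Ideal.subset_span ⟨⟨δ, hΦ⟩, hV⟩
    have h3 : I N ≤ RingHom.ker (aeval (fun q : Fin β × Fin n => vc (p + N • g) q.1 q.2) :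
        MvPolynomial (Fin β × Fin n) F →ₐ[F] F) := by
      refine Ideal.span_le.2 ?_
      rintro Ψ ⟨-, hΨ⟩
      refine hΨ (p + N • g) ?_
      change p + N • g - N • g ∈ Z
      rwa [add_sub_cancel_right]
    exact h3 h2
  have h2 := Zc_add h1 (-((N + 1) • g))
  have h3 : (fun R => R + -((N + 1) • g)) '' Zm (N + 1) ⊆ Z := by
    rintro _ ⟨q, hq, rfl⟩
    have h4 : q + -((N + 1) • g) = q - (N + 1) • g := by abel
    beta_reduce
    rw [h4]
    exact hq
  have h4 := hZ (Zc_mono h3 h2)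
  have h5 : p + N • g + -((N + 1) • g) = p - g := by
    rw [add_smul, one_smul]
    abel
  rw [h5] at h4
  exact h4

/-- the stabiliser of a closed set -/
def Stab (Z : Set (Bp A F)) (hZ : Zc Z ⊆ Z) : AddSubgroup (Bp A F) where
  carrier := {g | ∀ p ∈ Z, p + g ∈ Z}
  add_mem' := by
    intro g h hg hh p hp
    rw [← add_assoc]
    exact hh _ (hg p hp)
  zero_mem' := by
    intro p hp
    rwa [add_zero]
  neg_mem' := by
    intro g hg p hp
    rw [← sub_eq_add_neg]
    exact noeth hZ g hg p hp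

/-- a subgroup defined by multihomogeneous equations -/
def ClosedSub (A : Fin β → AbV K n) (F : Type) [Field F] [Algebra K F]
    (G : AddSubgroup (Bp A F)) : Prop :=
  ∃ Φs : Set (MvPolynomial (Fin β × Fin n) F), (∀ Φ ∈ Φs, ∃ δ, MH δ Φ) ∧
    ∀ P, P ∈ G ↔ ∀ Φ ∈ Φs, ev Φ (vc P) = 0

lemma closed_stab (Z : Set (Bp A F)) (hZ : Zc Z ⊆ Z) : ClosedSub A F (Stab Z hZ) := by
  refine ⟨{Ψ | ∃ (p : Bp A F) (_ : p ∈ Z) (j0 : Fin β → Fin n)
    (Φ : MvPolynomial (Fin β × Fin n) F) (δ : Fin β → ℕ), MH δ Φ ∧ Van Z Φ ∧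
      Ψ = sh A (vc p) j0 Φ}, ?_, fun g => ⟨fun hg => ?_, fun hg => ?_⟩⟩
  · rintro _ ⟨p, hp, j0, Φ, δ, hΦ, hV, rfl⟩
    exact MH_sh _ j0 hΦ
  · rintro _ ⟨p, hp, j0, Φ, δ, hΦ, hV, rfl⟩
    refine ev_sh_zero hΦ ?_ j0
    rw [add_comm]
    exact hV _ (hg p hp)
  · intro p hp
    refine hZ ?_
    intro Φ δ hΦ hV
    rw [add_comm]
    exact zero_of_sh hΦ (fun j0 => hg _ ⟨p, hp, j0, Φ, δ, hΦ, hV, rfl⟩)

end grp

section indep

variable {K : Type} [Field K] {n β : ℕ}

/-- Every closed subgroup, over an algebraically closed field, of a partial product of the `A b` that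
has infinite projections to the factors, is the whole partial product. -/
def Indep (A : Fin β → AbV K n) : Prop :=
  ∀ (F : Type) [Field F] [Algebra K F] [IsAlgClosed F] (γ : ℕ) (e : Fin γ ↪ Fin β)
    (G : AddSubgroup (Bp (fun j => A (e j)) F)), ClosedSub (fun j => A (e j)) F G →
    (∀ j, {Q : (A (e j)).Pt F | ∃ P ∈ G, P j = Q}.Infinite) → G = ⊤

variable {A : Fin β → AbV K n}

/-- the components with indices `e j` -/
def re {L : Type} [Field L] [Algebra K L] {γ : ℕ} (e : Fin γ ↪ Fin β) (s : Bp A L) :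
    Bp (fun j => A (e j)) L := fun j => s (e j)

lemma exP {F : Type} [Field F] [Algebra K F] {γ : ℕ} (e : Fin γ ↪ Fin β)
    (Q : Bp (fun j => A (e j)) F) (P0 : Bp A F) :
    ∃ P : Bp A F, (∀ j, P (e j) = Q j) ∧ ∀ b, (∀ j, e j ≠ b) → P b = P0 b := by
  classical
  refine ⟨fun b => if h : ∃ j, e j = b then h.choose_spec ▸ Q h.choose else P0 b,
    fun j => ?_, fun b hb => ?_⟩
  · have h : ∃ j', e j' = e j := ⟨j, rfl⟩
    have key : ∀ (j' : Fin γ) (h' : e j' = e j), (h' ▸ Q j' : (A (e j)).Pt F) = Q j := by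
      intro j' h'
      obtain rfl : j' = j := e.injective h'
      rfl
    beta_reduce
    rw [dif_pos h]
    exact key _ h.choose_spec
  · have h : ¬ ∃ j, e j = b := by
      rintro ⟨j, hj⟩
      exact hb j hj
    beta_reduce
    rw [dif_neg h]

open Classical in
/-- restriction of a form to a partial product, the other components being those of `P0` -/
noncomputable def rs {F : Type} [Field F] [Algebra K F] {γ : ℕ} (e : Fin γ ↪ Fin β) (P0 : Bp A F)
    (Φ : MvPolynomial (Fin β × Fin n) F) : MvPolynomial (Fin γ × Fin n) F :=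
  Pool.Agent.TH954.X.cmp Φ (fun b i => if h : ∃ j, e j = b then X (h.choose, i)
    else C ((P0 b).1 i))

lemma MH_rs {F : Type} [Field F] [Algebra K F] {γ : ℕ} (e : Fin γ ↪ Fin β) (P0 : Bp A F)
    {Φ : MvPolynomial (Fin β × Fin n) F} {δ : Fin β → ℕ} (hΦ : MH δ Φ) :
    ∃ σ, MH σ (rs e P0 Φ) := by
  classical
  refine ⟨_, MH_cmp hΦ _ (fun b j => if e j = b then 1 else 0) (fun b i => ?_)⟩
  by_cases h : ∃ j, e j = b
  · rw [dif_pos h]
    have h1 : (fun j => if e j = b then 1 else 0) = fun j => if j = h.choose then 1 else 0 := by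
      funext j
      have h2 : e j = b ↔ j = h.choose := by
        constructor
        · intro h3
          exact e.injective (h3.trans h.choose_spec.symm)
        · intro h3
          rw [h3]
          exact h.choose_spec
      simp only [h2]
    rw [h1]
    convert Gen.MH_X (K := F) h.choose i
  · rw [dif_neg h]
    have h1 : (fun j => if e j = b then 1 else 0) = fun _ : Fin γ => 0 := by
      funext j
      rw [if_neg]
      intro h2
      exact h ⟨j, h2⟩
    rw [h1]
    exact MH_C _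

lemma ev_rs {F : Type} [Field F] [Algebra K F] {γ : ℕ} (e : Fin γ ↪ Fin β) (P0 P : Bp A F)
    (hP : ∀ b, (∀ j, e j ≠ b) → P b = P0 b) (Φ : MvPolynomial (Fin β × Fin n) F) :
    ev (rs e P0 Φ) (vc (re e P)) = ev Φ (vc P) := by
  classical
  unfold rs
  rw [ev_cmp]
  congr 1
  funext b i
  by_cases h : ∃ j, e j = b
  · rw [dif_pos h]
    unfold ev
    rw [aeval_X]
    have h1 := h.choose_spec
    change (P (e h.choose)).1 i = (P b).1 i
    rw [h1]
  · rw [dif_neg h]
    unfold ev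
    rw [aeval_C]
    change (P0 b).1 i = (P b).1 i
    rw [hP b (fun j hj => h ⟨j, hj⟩)]

/-- there is a form in the components `e j`, over an extension field, which vanishes on a translate
of `S` but not identically -/
def HF {L : Type} [Field L] [Algebra K L] (S : Set (Bp A L)) (γ : ℕ) (e : Fin γ ↪ Fin β) :
    Prop :=
  ∃ (F : Type) (_ : Field F) (_ : Algebra K F) (_ : Algebra L F) (_ : IsScalarTower K L F)
    (c P : Bp (fun j => A (e j)) F) (Φ : MvPolynomial (Fin γ × Fin n) F) (δ : Fin γ → ℕ),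
    MH δ Φ ∧ ev Φ (vc P) ≠ 0 ∧
      ∀ s ∈ S, ev Φ (vc (mp (IsScalarTower.toAlgHom K L F) (re e s) + c)) = 0

lemma HF_closed {L : Type} [Field L] [Algebra K L] {S : Set (Bp A L)} {γ : ℕ}
    {e : Fin γ ↪ Fin β} (h : HF S γ e) :
    ∃ (F : Type) (_ : Field F) (_ : IsAlgClosed F) (_ : Algebra K F) (_ : Algebra L F)
      (_ : IsScalarTower K L F)
      (c P : Bp (fun j => A (e j)) F) (Φ : MvPolynomial (Fin γ × Fin n) F) (δ : Fin γ → ℕ),
      MH δ Φ ∧ ev Φ (vc P) ≠ 0 ∧
        ∀ s ∈ S, ev Φ (vc (mp (IsScalarTower.toAlgHom K L F) (re e s) + c)) = 0 := by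
  obtain ⟨F, iF, iKF, iLF, iT, c, P, Φ, δ, h1, h2, h3⟩ := h
  let χ : F →ₐ[K] AlgebraicClosure F := IsScalarTower.toAlgHom K F (AlgebraicClosure F)
  have hev : ∀ u : Fin γ → Fin n → F, ev (MvPolynomial.map (algebraMap F (AlgebraicClosure F)) Φ)
      (fun j c => algebraMap F (AlgebraicClosure F) (u j c)) =
      algebraMap F (AlgebraicClosure F) (ev Φ u) := by
    intro u
    unfold ev
    rw [aeval_def, eval₂_map]
    have h4 := MvPolynomial.comp_aeval_apply (f := fun p : Fin γ × Fin n => u p.1 p.2)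
      (Algebra.ofId F (AlgebraicClosure F)) Φ
    exact h4.symm
  refine ⟨AlgebraicClosure F, inferInstance, inferInstance, inferInstance, inferInstance,
    inferInstance, mp χ c, mp χ P, MvPolynomial.map (algebraMap F (AlgebraicClosure F)) Φ, δ,
    fun m hm j => h1 m (support_map_subset _ _ hm) j, ?_, ?_⟩
  · have h4 := hev (vc P)
    intro h5
    apply h2
    have h6 : algebraMap F (AlgebraicClosure F) (ev Φ (vc P)) = 0 := h4.symm.trans h5
    rwa [map_eq_zero] at h6
  · intro s hs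
    have h4 := hev (vc (mp (IsScalarTower.toAlgHom K L F) (re e s) + c))
    rw [h3 s hs, map_zero] at h4
    have h5 : mp (IsScalarTower.toAlgHom K L (AlgebraicClosure F)) (re e s) + mp χ c =
        mp χ (mp (IsScalarTower.toAlgHom K L F) (re e s) + c) := by
      rw [(mp_both χ _ _).1]
      congr 1
    rw [h5]
    exact h4

end indep

section main

variable {K : Type} [Field K] {n β : ℕ} {A : Fin β → AbV K n}

/-- multiples of a point with algebraic coordinates have algebraic coordinates -/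
lemma alg_nsmul {k F : Type} [Field k] [Field F] [Algebra K k] [Algebra K F] [Algebra k F]
    [IsScalarTower K k F] (P : Bp A F) (hP : ∀ b c, IsAlgebraic k ((P b).1 c)) (N : ℕ) :
    ∀ b c, IsAlgebraic k (((N • P) b).1 c) := by
  let kc := algebraicClosure k F
  let iKkc : Algebra K kc := ((algebraMap k kc).comp (algebraMap K k)).toAlgebra
  have hT : IsScalarTower K kc F := by
    refine IsScalarTower.of_algebraMap_eq' ?_
    ext a
    exact IsScalarTower.algebraMap_apply K k F a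
  let χ : kc →ₐ[K] F := IsScalarTower.toAlgHom K kc F
  obtain ⟨t, ht⟩ := lift_pt χ P (fun b c => ⟨⟨(P b).1 c, mem_algebraicClosure_iff.2 (hP b c)⟩, rfl⟩)
  intro b c
  have h1 : N • P = mp χ (N • t) := by
    rw [← ht]
    exact ((mpH χ).map_nsmul N t).symm
  rw [h1]
  exact mem_algebraicClosure_iff.1 ((N • t) b |>.1 c).2

theorem algF (hI : Indep A) {L k : Type} [Field L] [Algebra K L] [Field k] [Algebra K k]
    [Algebra k L] [IsScalarTower K k L] (S S0 S1 : Set (Bp A L)) (x y : Bp A L) (γ : ℕ)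
    (e : Fin γ ↪ Fin β) (hHF : HF S γ e) (hmin : ∀ γ' < γ, ∀ e' : Fin γ' ↪ Fin β, ¬ HF S γ' e')
    (h0 : S0 ⊆ S) (h1 : S1 ⊆ S)
    (hx : ∀ z ∈ S0, ∃ t : Bp (fun j => A (e j)) k, mp (IsScalarTower.toAlgHom K k L) t =
      re e z - re e x)
    (hy : ∀ z ∈ S1, ∃ t : Bp (fun j => A (e j)) k, mp (IsScalarTower.toAlgHom K k L) t =
      re e z - re e y)
    (d0 : ∀ (Φ : MvPolynomial (Fin β × Fin n) L) (δ : Fin β → ℕ), MH δ Φ → Van S0 Φ → Van S Φ)
    (d1 : ∀ (Φ : MvPolynomial (Fin β × Fin n) L) (δ : Fin β → ℕ), MH δ Φ → Van S1 Φ → Van S Φ) :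
    ∃ N : ℕ, 0 < N ∧ ∀ j c, IsAlgebraic k (((N • (re e y - re e x)) j).1 c) := by
  classical
  obtain ⟨F, iF, iFc, iKF, iLF, iT, c, P, Φ, δ, hΦ, hP, hS⟩ := HF_closed hHF
  let ikF : Algebra k F := ((algebraMap L F).comp (algebraMap k L)).toAlgebra
  have hkLF : IsScalarTower k L F := IsScalarTower.of_algebraMap_eq' rfl
  have hKkF : IsScalarTower K k F := by
    refine IsScalarTower.of_algebraMap_eq' ?_
    ext a
    change algebraMap K F a = algebraMap L F (algebraMap k L (algebraMap K k a))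
    rw [← IsScalarTower.algebraMap_apply K k L, ← IsScalarTower.algebraMap_apply K L F]
  set ψ := IsScalarTower.toAlgHom K L F with hψ
  have hd : ∀ (S' : Set (Bp A L)), (∀ (Φ : MvPolynomial (Fin β × Fin n) L) (δ : Fin β → ℕ),
      MH δ Φ → Van S' Φ → Van S Φ) → ∀ (Φ : MvPolynomial (Fin γ × Fin n) L) (δ : Fin γ → ℕ),
      MH δ Φ → Van (re e '' S') Φ → Van (re e '' S) Φ := by
    intro S' hd' Φ δ hΦ hV
    obtain ⟨σ, hσ⟩ := Dns.MH_pull (fun j => e j) hΦ
    have h2 := hd' _ σ hσ (fun Q hQ => by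
      rw [Dns.ev_pull]
      exact hV _ ⟨Q, hQ, rfl⟩)
    rintro _ ⟨Q, hQ, rfl⟩
    have h3 := h2 Q hQ
    rw [Dns.ev_pull] at h3
    exact h3
  obtain ⟨y', hy'1, hy'2⟩ := alg (k := k) (F := F) (re e '' S0) (re e '' S1) (re e '' S)
    (re e x) (re e y) (Set.image_mono h0) (Set.image_mono h1)
    (by rintro _ ⟨z, hz, rfl⟩; exact hx z hz) (by rintro _ ⟨z, hz, rfl⟩; exact hy z hz)
    (hd S0 d0) (hd S1 d1)
  set v := re e y - re e x with hv
  set w := mp ψ v - y' with hw
  set Z := Zc (mp ψ '' (re e '' S)) with hZ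
  have hZc : Zc Z ⊆ Z := Zc_Zc (le_refl _)
  have hwG : w ∈ Stab Z hZc := by
    have h2 : -w ∈ Stab Z hZc := by
      intro p hp
      rw [← sub_eq_add_neg]
      exact hy'2 p hp
    have h3 := (Stab Z hZc).neg_mem h2
    rwa [neg_neg] at h3
  -- the torsion components
  have hN : ∃ N : ℕ, 0 < N ∧ ∀ j, IsOfFinAddOrder (w j) → N • w j = 0 := by
    refine ⟨∏ j, if IsOfFinAddOrder (w j) then addOrderOf (w j) else 1,
      Finset.prod_pos (fun j _ => ?_), fun j hj => ?_⟩
    · split_ifs with h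
      · exact h.addOrderOf_pos
      · exact one_pos
    · rw [← addOrderOf_dvd_iff_nsmul_eq_zero]
      have h2 := Finset.dvd_prod_of_mem
        (fun j => if IsOfFinAddOrder (w j) then addOrderOf (w j) else 1) (Finset.mem_univ j)
      beta_reduce at h2
      rwa [if_pos hj] at h2
  obtain ⟨N, hN0, hN1⟩ := hN
  by_cases hall : ∀ j, IsOfFinAddOrder (w j)
  · refine ⟨N, hN0, fun j c' => ?_⟩
    have h2 : N • w = 0 := funext fun j => hN1 j (hall j)
    have h3 : mp ψ (N • v) = N • y' := by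
      have h4 : mp ψ (N • v) = N • mp ψ v := (mpH ψ).map_nsmul N v
      rw [h4, ← sub_eq_zero, ← smul_sub]
      exact h2
    have h5 := alg_nsmul y' hy'1 N j c'
    rw [← h3] at h5
    have h6 : IsAlgebraic k (algebraMap L F (((N • v) j).1 c')) := h5
    exact (isAlgebraic_algebraMap_iff (algebraMap L F).injective).1 h6
  exfalso
  -- the sets of components
  let J1 : Finset (Fin γ) := Finset.univ.filter (fun j => ¬ IsOfFinAddOrder (w j))
  let J2 : Finset (Fin γ) := Finset.univ.filter (fun j => IsOfFinAddOrder (w j))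
  let e1 : Fin J1.card ↪ Fin γ := (J1.orderEmbOfFin rfl).toEmbedding
  let e2 : Fin J2.card ↪ Fin γ := (J2.orderEmbOfFin rfl).toEmbedding
  have he1 : ∀ j, (∃ i, e1 i = j) ↔ ¬ IsOfFinAddOrder (w j) := by
    intro j
    have h2 := Set.ext_iff.1 (Finset.range_orderEmbOfFin J1 rfl) j
    rw [Set.mem_range] at h2
    refine h2.trans ?_
    simp [J1]
  have he2 : ∀ j, (∃ i, e2 i = j) ↔ IsOfFinAddOrder (w j) := by
    intro j
    have h2 := Set.ext_iff.1 (Finset.range_orderEmbOfFin J2 rfl) j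
    rw [Set.mem_range] at h2
    refine h2.trans ?_
    simp [J2]
  have hcard : J2.card < γ := by
    push Not at hall
    obtain ⟨j, hj⟩ := hall
    have h2 : J2 ⊂ Finset.univ := by
      refine Finset.filter_ssubset.2 ⟨j, Finset.mem_univ j, hj⟩
    have h3 := Finset.card_lt_card h2
    rwa [Finset.card_univ, Fintype.card_fin] at h3
  -- the subgroup of the stabiliser
  let G := Stab Z hZc
  let G1 : AddSubgroup (Bp (fun i => A ((e1.trans e) i)) F) :=
    { carrier := {Q | ∃ R ∈ G, (∀ j, (∀ i, e1 i ≠ j) → R j = 0) ∧ ∀ i, R (e1 i) = Q i}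
      add_mem' := by
        rintro Q Q' ⟨R, hR, hR1, hR2⟩ ⟨R', hR', hR1', hR2'⟩
        refine ⟨R + R', G.add_mem hR hR', fun j hj => ?_, fun i => ?_⟩
        · rw [Pi.add_apply, hR1 j hj, hR1' j hj, add_zero]
        · rw [Pi.add_apply, Pi.add_apply, hR2, hR2']
          rfl
      zero_mem' := ⟨0, G.zero_mem, fun _ _ => rfl, fun _ => rfl⟩
      neg_mem' := by
        rintro Q ⟨R, hR, hR1, hR2⟩
        refine ⟨-R, G.neg_mem hR, fun j hj => ?_, fun i => ?_⟩
        · rw [Pi.neg_apply, hR1 j hj, neg_zero]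
        · rw [Pi.neg_apply, Pi.neg_apply, hR2]
          rfl }
  have hG1c : ClosedSub (fun i => A ((e1.trans e) i)) F G1 := by
    obtain ⟨Φs, hΦs1, hΦs2⟩ := closed_stab Z hZc
    refine ⟨{Ψ | ∃ Φ ∈ Φs, Ψ = rs (A := fun j => A (e j)) e1 0 Φ}, ?_, fun Q => ?_⟩
    · rintro _ ⟨Ψ, hΨ, rfl⟩
      obtain ⟨σ, hσ⟩ := hΦs1 Ψ hΨ
      exact MH_rs e1 0 hσ
    · obtain ⟨R, hR1, hR2⟩ := exP (A := fun j => A (e j)) e1 Q 0
      have hval : ∀ Ψ : MvPolynomial (Fin γ × Fin n) F,
          ev (rs (A := fun j => A (e j)) e1 0 Ψ) (vc Q) = ev Ψ (vc R) := by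
        intro Ψ
        have h9 : vc Q = vc (re e1 R) := funext fun i => congrArg Subtype.val (hR1 i).symm
        exact (congrArg (ev (rs (A := fun j => A (e j)) e1 0 Ψ)) h9).trans (ev_rs e1 0 R hR2 Ψ)
      constructor
      · rintro ⟨R', hR', hR1', hR2'⟩ _ ⟨Ψ, hΨ, rfl⟩
        have h2 : R' = R := by
          funext j
          by_cases hj : ∃ i, e1 i = j
          · obtain ⟨i, rfl⟩ := hj
            rw [hR2', hR1]
          · push Not at hj
            rw [hR1' j hj, hR2 j hj]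
            rfl
        rw [h2] at hR'
        exact (hval Ψ).trans ((hΦs2 R).1 hR' Ψ hΨ)
      · intro h2
        refine ⟨R, (hΦs2 R).2 (fun Ψ hΨ => ?_), hR2, hR1⟩
        exact (hval Ψ).symm.trans (h2 _ ⟨Ψ, hΨ, rfl⟩)
  have hG1t : G1 = ⊤ := by
    refine hI F _ (e1.trans e) G1 hG1c (fun i => ?_)
    have h2 : ¬ IsOfFinAddOrder (w (e1 i)) := (he1 _).1 ⟨i, rfl⟩
    have h3 : ¬ IsOfFinAddOrder (N • w (e1 i)) := by
      intro h4
      exact h2 ((isOfFinAddOrder_nsmul.1 h4).resolve_right hN0.ne')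
    have h4 : Function.Injective (fun m : ℕ => m • (N • w (e1 i))) :=
      injective_nsmul_iff_not_isOfFinAddOrder.2 h3
    refine (Set.infinite_range_of_injective h4).mono ?_
    rintro _ ⟨m, rfl⟩
    refine ⟨fun i => (m • (N • w)) (e1 i), ⟨m • (N • w), G.nsmul_mem (G.nsmul_mem hwG N) m,
      fun j hj => ?_, fun _ => rfl⟩, rfl⟩
    have h5 : IsOfFinAddOrder (w j) := by
      by_contra h6
      obtain ⟨i', hi'⟩ := (he1 j).2 h6
      exact hj i' hi'
    change m • (N • w j) = 0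
    rw [hN1 j h5, smul_zero]
  -- the form in fewer components
  let c2 : Bp (fun i => A ((e2.trans e) i)) F := fun i => c (e2 i)
  let P2 : Bp (fun i => A ((e2.trans e) i)) F := fun i => P (e2 i)
  refine hmin J2.card hcard (e2.trans e) ⟨F, iF, iKF, iLF, iT, c2, P2, rs e2 P Φ, ?_⟩
  obtain ⟨σ, hσ⟩ := MH_rs e2 P hΦ
  refine ⟨σ, hσ, ?_, fun s hs => ?_⟩
  · have h2 : ev (rs e2 P Φ) (vc (re e2 P)) = ev Φ (vc P) := ev_rs e2 P P (fun _ _ => rfl) Φ
    intro h3
    exact hP (h2.symm.trans h3)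
  · obtain ⟨q, hq1, hq2⟩ := exP (A := fun j => A (e j)) e2
      (re e2 (mp ψ (re e s) + c)) P
    have h2 : vc (mp ψ (re (e2.trans e) s) + c2) = vc (re e2 q) := by
      funext i
      change ((mp ψ (re (e2.trans e) s) + c2) i).1 = (q (e2 i)).1
      rw [hq1]
      rfl
    have h2' : ev (rs e2 P Φ) (vc (mp ψ (re (e2.trans e) s) + c2)) =
        ev (rs e2 P Φ) (vc (re e2 q)) := congrArg (ev (rs e2 P Φ)) h2
    refine Eq.trans h2' ?_
    rw [ev_rs e2 P q hq2]
    set u := q - (mp ψ (re e s) + c) with hu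
    have huG : u ∈ G := by
      have h3 : (fun i => u (e1 i)) ∈ G1 := by
        rw [hG1t]
        trivial
      obtain ⟨R, hR, hR1, hR2⟩ := h3
      have h4 : R = u := by
        funext j
        by_cases hj : ∃ i, e1 i = j
        · obtain ⟨i, rfl⟩ := hj
          exact hR2 i
        · have hj' : ∀ i, e1 i ≠ j := fun i hi => hj ⟨i, hi⟩
          rw [hR1 j hj']
          have h5 : IsOfFinAddOrder (w j) := by
            by_contra h6
            exact hj ((he1 j).2 h6)
          obtain ⟨i, rfl⟩ := (he2 j).2 h5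
          have h6 : u (e2 i) = q (e2 i) - (mp ψ (re e s) + c) (e2 i) := rfl
          rw [h6, hq1]
          exact (sub_self _).symm
      rwa [h4] at hR
    have h3 : mp ψ (re e s) ∈ Z := sub_Zc _ ⟨re e s, ⟨s, hs, rfl⟩, rfl⟩
    have h4 := huG _ h3
    have h5 := Zc_add h4 c
    have h6 : mp ψ (re e s) + u + c = q := by
      rw [hu]
      abel
    rw [h6] at h5
    refine h5 Φ δ hΦ ?_
    rintro _ ⟨_, ⟨_, ⟨s', hs', rfl⟩, rfl⟩, rfl⟩
    exact hS s' hs'

end main

end Pool.Agent.J4H27.ML
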