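import Pool.Agent.TH954.Z.Dense
import Pool.Agent.TH954.X.Gen

/-!
# Points of a product of abelian varieties: base change, translations, Zariski closure
-/

set_option autoImplicit false
set_option linter.unusedSectionVars false

open MvPolynomial Pool.Agent.TH954.X Pool.Agent.TH954.Z

namespace Pool.Agent.J4H27.ML

section normed

variable {F : Type} [Field F] {n : ℕ}

lemma normed_uniq {u u' : Fin n → F} (h : Normed u) (h' : Normed u') (s : F)
    (hs : ∀ i, u i = s * u' i) : u = u' := by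
  obtain ⟨i, hi, hj⟩ := h
  obtain ⟨i', hi', hj'⟩ := h'
  have hs0 : s ≠ 0 := by
    intro h0
    have := hs i
    rw [hi, h0, zero_mul] at this
    exact one_ne_zero this
  have hii : i = i' := by
    rcases lt_trichotomy i i' with hlt | heq | hgt
    · have := hs i
      rw [hi, hj' i hlt, mul_zero] at this
      exact absurd this one_ne_zero
    · exact heq
    · have := hs i'
      rw [hj i' hgt, hi', mul_one] at this
      exact absurd this.symm hs0
  subst hii
  have h1 := hs i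
  rw [hi, hi', mul_one] at h1
  funext c
  rw [hs c, ← h1, one_mul]

lemma rank1 {u v u' v' : Fin n → F} (hu : Normed u) (hv : Normed v) (hu' : Normed u')
    (hv' : Normed v') {s s' : F} (hs : s ≠ 0)
    (h : ∀ i j, s * (u i * v j) = s' * (u' i * v' j)) : u = u' ∧ v = v' := by
  obtain ⟨i0, hi0, -⟩ := id hu
  obtain ⟨j0, hj0, -⟩ := id hv
  refine ⟨normed_uniq hu hu' (s⁻¹ * s' * v' j0) (fun i => ?_),
    normed_uniq hv hv' (s⁻¹ * s' * u' i0) (fun j => ?_)⟩
  · have h1 := h i j0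
    rw [hj0, mul_one] at h1
    field_simp
    linear_combination h1
  · have h1 := h i0 j
    rw [hi0, one_mul] at h1
    field_simp
    linear_combination h1

end normed

section mp

variable {K : Type} [Field K] {n β : ℕ}

lemma ev_hom {ι : Type} [Fintype ι] {F1 F2 : Type} [Field F1] [Algebra K F1] [Field F2]
    [Algebra K F2] (φ : F1 →ₐ[K] F2) (f : MvPolynomial (ι × Fin n) K) (u : ι → Fin n → F1) :
    ev f (fun j c => φ (u j c)) = φ (ev f u) := by
  unfold ev
  rw [MvPolynomial.comp_aeval_apply]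

variable {A : Fin β → AbV K n}

/-- base change of points -/
def mp {F1 F2 : Type} [Field F1] [Algebra K F1] [Field F2] [Algebra K F2] (φ : F1 →ₐ[K] F2)
    (P : Bp A F1) : Bp A F2 :=
  fun b => ⟨fun c => φ ((P b).1 c), Dns.Pv.map (B := A b) φ (P b).2⟩

lemma mp_val {F1 F2 : Type} [Field F1] [Algebra K F1] [Field F2] [Algebra K F2]
    (φ : F1 →ₐ[K] F2) (P : Bp A F1) (b : Fin β) (c : Fin n) :
    (mp φ P b).1 c = φ ((P b).1 c) := rfl

lemma mp_both {F1 F2 : Type} [Field F1] [Algebra K F1] [Field F2] [Algebra K F2]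
    (φ : F1 →ₐ[K] F2) (P Q : Bp A F1) :
    mp φ (P + Q) = mp φ P + mp φ Q ∧ mp φ (P - Q) = mp φ P - mp φ Q := by
  have key : ∀ b, (mp φ (P + Q) b).1 = ((mp φ P + mp φ Q) b).1 ∧
      (mp φ (P - Q) b).1 = ((mp φ P - mp φ Q) b).1 := by
    intro b
    obtain ⟨s, hs, h⟩ := (A b).Λ_spec F1 (P b) (Q b)
    obtain ⟨s', hs', h'⟩ := (A b).Λ_spec F2 (mp φ P b) (mp φ Q b)
    refine rank1 (mp φ (P + Q) b).2.1 (mp φ (P - Q) b).2.1 ((mp φ P + mp φ Q) b).2.1
      ((mp φ P - mp φ Q) b).2.1 (s := φ s) (s' := s') (by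
        rw [Ne, map_eq_zero]; exact hs) ?_
    intro i j
    have h1 := congrArg φ (h i j)
    have h2 := h' i j
    rw [map_mul, map_mul] at h1
    have h3 : φ (ev ((A b).Λ i j) ![(P b).1, (Q b).1]) =
        ev ((A b).Λ i j) ![(mp φ P b).1, (mp φ Q b).1] := by
      rw [← ev_hom]
      congr 1
      funext l c
      fin_cases l <;> rfl
    exact h1.symm.trans (h3.trans h2)
  exact ⟨funext fun b => Subtype.ext (key b).1, funext fun b => Subtype.ext (key b).2⟩

/-- base change as a homomorphism -/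
def mpH {F1 F2 : Type} [Field F1] [Algebra K F1] [Field F2] [Algebra K F2] (φ : F1 →ₐ[K] F2) :
    Bp A F1 →+ Bp A F2 := AddMonoidHom.mk' (mp φ) (fun P Q => (mp_both φ P Q).1)

lemma mpH_apply {F1 F2 : Type} [Field F1] [Algebra K F1] [Field F2] [Algebra K F2]
    (φ : F1 →ₐ[K] F2) (P : Bp A F1) : mpH φ P = mp φ P := rfl

lemma mp_inj {F1 F2 : Type} [Field F1] [Algebra K F1] [Field F2] [Algebra K F2]
    (φ : F1 →ₐ[K] F2) : Function.Injective (mp (A := A) φ) := by
  intro P Q h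
  funext b
  refine Subtype.ext (funext fun c => φ.injective ?_)
  exact congrFun (congrArg Subtype.val (congrFun h b)) c

end mp

section tr

variable {K : Type} [Field K] {n β : ℕ} {A : Fin β → AbV K n} {F : Type} [Field F] [Algebra K F]

/-- the forms representing the translation by a point, row `j0` -/
noncomputable def Tr (A : Fin β → AbV K n) (c : Fin β → Fin n → F) (j0 : Fin β → Fin n)
    (b : Fin β) (i : Fin n) : MvPolynomial (Fin β × Fin n) F :=
  aeval (fun p : Fin 2 × Fin n => if p.1 = 0 then X (b, p.2) else C (c b p.2))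
    ((A b).Λ i (j0 b))

lemma ev_Tr (c : Fin β → Fin n → F) (j0 : Fin β → Fin n) (b : Fin β) (i : Fin n)
    (u : Fin β → Fin n → F) :
    ev (Tr A c j0 b i) u = ev ((A b).Λ i (j0 b)) ![u b, c b] := by
  unfold Tr ev
  have h := MvPolynomial.comp_aeval_apply
    (f := fun p : Fin 2 × Fin n => if p.1 = 0 then (X (b, p.2) : MvPolynomial (Fin β × Fin n) F)
      else C (c b p.2)) ((aeval (fun p : Fin β × Fin n => u p.1 p.2) :
        MvPolynomial (Fin β × Fin n) F →ₐ[F] F).restrictScalars K) ((A b).Λ i (j0 b))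
  refine h.trans ?_
  congr 1
  congr 1
  funext p
  obtain ⟨l, e⟩ := p
  fin_cases l
  · simp
  · simp

lemma MH_Tr (c : Fin β → Fin n → F) (j0 : Fin β → Fin n) (b : Fin β) (i : Fin n) :
    MH (fun j => if j = b then 2 else 0) (Tr A c j0 b i) := by
  classical
  unfold Tr
  rw [aeval_def, eval₂_eq']
  refine MH_sum _ _ _ (fun m hm => ?_)
  have h1 := MH_prod (K := F) (Finset.univ : Finset (Fin 2 × Fin n))
    (fun p j => m p * if p.1 = 0 then (if j = b then 1 else 0) else 0)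
    (fun p => (if p.1 = 0 then (X (b, p.2) : MvPolynomial (Fin β × Fin n) F)
      else C (c b p.2)) ^ m p) (fun p _ => by
        refine MH_pow ?_ _
        by_cases hp : p.1 = 0
        · simp only [hp, if_true]
          convert Gen.MH_X (K := F) b p.2
        · simp only [if_neg hp]
          exact MH_C _)
  have h2 := MH_mul (MH_C (ι := Fin β) (n := n) (algebraMap K F (coeff m ((A b).Λ i (j0 b))))) h1
  have h3 : (fun j : Fin β => 0 + ∑ p : Fin 2 × Fin n,
      m p * if p.1 = 0 then (if j = b then 1 else 0) else 0) =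
      fun j => if j = b then 2 else 0 := by
    funext j
    rw [zero_add, Fintype.sum_prod_type, Fin.sum_univ_two]
    simp only [if_true, one_ne_zero, if_false, mul_zero, Finset.sum_const_zero, add_zero]
    rw [← Finset.sum_mul]
    have h4 := (A b).Λ_hom i (j0 b) m hm 0
    rw [h4]
    split_ifs <;> rfl
  rw [h3] at h2
  exact h2

/-- the form `Φ` translated by `c`, row `j0` -/
noncomputable def sh (A : Fin β → AbV K n) (c : Fin β → Fin n → F) (j0 : Fin β → Fin n)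
    (Φ : MvPolynomial (Fin β × Fin n) F) : MvPolynomial (Fin β × Fin n) F :=
  Pool.Agent.TH954.X.cmp Φ (Tr A c j0)

lemma MH_sh (c : Fin β → Fin n → F) (j0 : Fin β → Fin n)
    {Φ : MvPolynomial (Fin β × Fin n) F} {δ : Fin β → ℕ} (hΦ : MH δ Φ) :
    ∃ σ, MH σ (sh A c j0 Φ) :=
  ⟨_, MH_cmp hΦ (Tr A c j0) (fun b j => if j = b then 2 else 0) (fun b i => MH_Tr c j0 b i)⟩

lemma ev_sh (P Q : Bp A F) : ∃ s : Fin β → F, (∀ b, s b ≠ 0) ∧
    ∀ (j0 : Fin β → Fin n) (Φ : MvPolynomial (Fin β × Fin n) F) (δ : Fin β → ℕ), MH δ Φ →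
      ev (sh A (vc Q) j0 Φ) (vc P) =
        (∏ b, (s b * ((P - Q) b).1 (j0 b)) ^ δ b) * ev Φ (vc (P + Q)) := by
  choose s hs h using fun b => (A b).Λ_spec F (P b) (Q b)
  refine ⟨s, hs, fun j0 Φ δ hΦ => ?_⟩
  unfold sh
  rw [ev_cmp]
  have h1 : (fun b i => ev (Tr A (vc Q) j0 b i) (vc P)) =
      fun b => (s b * ((P - Q) b).1 (j0 b)) • vc (P + Q) b := by
    funext b i
    rw [ev_Tr]
    have h2 := h b i (j0 b)
    refine h2.trans ?_
    rw [Pi.smul_apply, smul_eq_mul]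
    have h3 : vc (P + Q) b i = (((A b).grp F).add (P b) (Q b)).1 i := rfl
    have h4 : ((P - Q) b).1 (j0 b) = (((A b).grp F).sub (P b) (Q b)).1 (j0 b) := rfl
    rw [h3, h4]
    ring
  rw [h1, ev_smul hΦ]

lemma ev_sh_zero {P Q : Bp A F} {Φ : MvPolynomial (Fin β × Fin n) F} {δ : Fin β → ℕ}
    (hΦ : MH δ Φ) (h : ev Φ (vc (P + Q)) = 0) (j0 : Fin β → Fin n) :
    ev (sh A (vc Q) j0 Φ) (vc P) = 0 := by
  obtain ⟨s, -, hs⟩ := ev_sh P Q
  rw [hs j0 Φ δ hΦ, h, mul_zero]

lemma zero_of_sh {P Q : Bp A F} {Φ : MvPolynomial (Fin β × Fin n) F} {δ : Fin β → ℕ}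
    (hΦ : MH δ Φ) (h : ∀ j0 : Fin β → Fin n, ev (sh A (vc Q) j0 Φ) (vc P) = 0) :
    ev Φ (vc (P + Q)) = 0 := by
  obtain ⟨s, hs0, hs⟩ := ev_sh P Q
  choose j0 hj0 _ using fun b => ((P - Q) b).2.1
  have h1 := h j0
  rw [hs j0 Φ δ hΦ, mul_eq_zero] at h1
  refine h1.resolve_left (Finset.prod_ne_zero_iff.2 fun b _ => pow_ne_zero _ ?_)
  rw [hj0 b, mul_one]
  exact hs0 b

end tr

section closure

variable {K : Type} [Field K] {n β : ℕ} {A : Fin β → AbV K n} {F : Type} [Field F] [Algebra K F]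

/-- the form `Φ` vanishes on the set `U` -/
def Van (U : Set (Bp A F)) (Φ : MvPolynomial (Fin β × Fin n) F) : Prop :=
  ∀ P ∈ U, ev Φ (vc P) = 0

/-- Zariski closure -/
def Zc (U : Set (Bp A F)) : Set (Bp A F) :=
  {P | ∀ (Φ : MvPolynomial (Fin β × Fin n) F) (δ : Fin β → ℕ), MH δ Φ → Van U Φ →
    ev Φ (vc P) = 0}

lemma sub_Zc (U : Set (Bp A F)) : U ⊆ Zc U := fun _ hP _ _ _ h => h _ hP

lemma Zc_mono {U V : Set (Bp A F)} (h : U ⊆ V) : Zc U ⊆ Zc V :=
  fun _ hP Φ δ h1 h2 => hP Φ δ h1 (fun Q hQ => h2 Q (h hQ))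

lemma Zc_Zc {U V : Set (Bp A F)} (h : U ⊆ Zc V) : Zc U ⊆ Zc V :=
  fun _ hP Φ δ h1 h2 => hP Φ δ h1 (fun _ hQ => h hQ Φ δ h1 h2)

lemma Zc_add {U : Set (Bp A F)} {P : Bp A F} (hP : P ∈ Zc U) (Q : Bp A F) :
    P + Q ∈ Zc ((fun R => R + Q) '' U) := by
  intro Φ δ hΦ hV
  refine zero_of_sh hΦ (fun j0 => ?_)
  obtain ⟨σ, hσ⟩ := MH_sh (A := A) (vc Q) j0 hΦ
  exact hP _ σ hσ (fun R hR => ev_sh_zero hΦ (hV _ ⟨R, hR, rfl⟩) j0)

end closure

end Pool.Agent.J4H27.ML
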