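import Pool.Agent.J4H27.ML.Gap
import Pool.Agent.J4H27.AB.Log

/-!
# The points of a hypersurface of bounded degree
-/

set_option autoImplicit false
set_option linter.unusedSectionVars false

open MvPolynomial Pool.Agent.TH954.X Pool.Agent.TH954.Z Filter NumberField Height

namespace Pool.Agent.J4H27.ML

section count

variable {K : Type} [Field K] [NumberField K] {n β : ℕ} {A : Fin β → AbV K n}

/-- restriction of the components, as a homomorphism -/
def reH {γ : ℕ} (e : Fin γ ↪ Fin β) : Bp A K →+ Bp (fun j => A (e j)) K :=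
  AddMonoidHom.mk' (re e) (fun _ _ => rfl)

lemma piece {γ : ℕ} (e : Fin γ ↪ Fin β) (Γ : AddSubgroup (Bp A K)) (x : Bp A K)
    (S E : Set (Bp A K)) (hS : ∀ z ∈ S, z - x ∈ Γ) (hE : E ⊆ S) (M N : ℕ) (T ρ : ℝ)
    (hcol : ∃ col : Bp (fun j => A (e j)) K → Fin N, ∀ P ∈ Γ.map (reH e), ∀ Q ∈ Γ.map (reH e),
      ht P ≤ T → ht Q ≤ T → col P = col Q → ht (P - Q) ≤ ρ)
    (hT : ∀ z ∈ E, ht (re e (z - x)) ≤ T)
    (hM : ∀ y ∈ E, FC A M {z | z ∈ S ∧ ht (re e (z - y)) ≤ ρ}) : FC A (N * M) E := by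
  classical
  obtain ⟨col, hcol⟩ := hcol
  refine FC.col (fun z => col (re e (z - x))) (fun c => ?_)
  by_cases hne : ∃ y, y ∈ E ∧ col (re e (y - x)) = c
  · obtain ⟨y, hy, hyc⟩ := hne
    refine (hM y hy).mono ?_ (le_refl _)
    rintro z ⟨hz, hzc⟩
    refine ⟨hE hz, ?_⟩
    have h1 := hcol (re e (z - x)) ⟨z - x, hS z (hE hz), rfl⟩ (re e (y - x))
      ⟨y - x, hS y (hE hy), rfl⟩ (hT z hz) (hT y hy) (hzc.trans hyc.symm)
    have h2 : re e (z - x) - re e (y - x) = re e (z - y) := by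
      have h3 : re e (z - x) - re e (y - x) = re e ((z - x) - (y - x)) := rfl
      rw [h3, sub_sub_sub_cancel_right]
    rwa [h2] at h1
  · refine (FC.empty A).mono ?_ (Nat.zero_le _)
    rintro z ⟨hz, hzc⟩
    exact absurd ⟨z, hz, hzc⟩ hne

lemma count {γ : ℕ} (e : Fin γ ↪ Fin β) (Γ : AddSubgroup (Bp A K)) (x : Bp A K)
    (S : Set (Bp A K)) (hS : ∀ z ∈ S, z - x ∈ Γ) (M N k0 : ℕ) (μ C : ℝ) (hk0 : 1 ≤ k0)
    (hμ1 : 1 ≤ μ) (hμC : 4 * C ≤ μ)
    (hcol : ∀ T : ℝ, 1 ≤ T → ∃ col : Bp (fun j => A (e j)) K → Fin N,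
      ∀ P ∈ Γ.map (reH e), ∀ Q ∈ Γ.map (reH e), ht P ≤ T → ht Q ≤ T → col P = col Q →
        ht (P - Q) ≤ 1 / (4 * (k0 : ℝ)) * T + C)
    (hcore : ∀ y ∈ S, FC A M {z | z ∈ S ∧ ht (re e (z - y)) ≤ μ / 2})
    (hgap : ∀ y : Bp A K, ∀ r : ℝ, (k0 : ℝ) * μ ≤ r →
      r ≤ ht (re e (y - x)) → FC A M {z | z ∈ S ∧ ht (re e (z - y)) ≤ r / k0}) (I : ℕ) :
    FC A (N * M * (I + 1)) {z | z ∈ S ∧ ht (re e (z - x)) ≤ 2 ^ I * (k0 * μ)} := by
  have hk : (1 : ℝ) ≤ k0 := by exact_mod_cast hk0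
  have hkm : 1 ≤ (k0 : ℝ) * μ := by nlinarith
  induction I with
  | zero =>
    rw [zero_add, mul_one, pow_zero, one_mul]
    refine piece e Γ x S _ hS (fun z hz => hz.1) M N (k0 * μ)
      (1 / (4 * (k0 : ℝ)) * (k0 * μ) + C) (hcol _ hkm) (fun z hz => hz.2) (fun y hy => ?_)
    refine (hcore y hy.1).mono ?_ (le_refl _)
    rintro z ⟨hz1, hz2⟩
    refine ⟨hz1, hz2.trans ?_⟩
    have h1 : 1 / (4 * (k0 : ℝ)) * (k0 * μ) = μ / 4 := by
      field_simp
    rw [h1]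
    linarith
  | succ I ih =>
    have hI : (1 : ℝ) ≤ 2 ^ I := one_le_pow₀ (by norm_num)
    have h1 : FC A (N * M) {z | z ∈ S ∧ 2 ^ I * ((k0 : ℝ) * μ) ≤ ht (re e (z - x)) ∧
        ht (re e (z - x)) ≤ 2 ^ (I + 1) * (k0 * μ)} := by
      refine piece e Γ x S _ hS (fun z hz => hz.1) M N (2 ^ (I + 1) * (k0 * μ))
        (1 / (4 * (k0 : ℝ)) * (2 ^ (I + 1) * (k0 * μ)) + C) (hcol _ ?_)
        (fun z hz => hz.2.2) (fun y hy => ?_)
      · rw [pow_succ]
        nlinarith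
      · refine (hgap y (2 ^ I * ((k0 : ℝ) * μ)) (by nlinarith) hy.2.1).mono ?_ (le_refl _)
        rintro z ⟨hz1, hz2⟩
        refine ⟨hz1, hz2.trans ?_⟩
        have h2 : 1 / (4 * (k0 : ℝ)) * (2 ^ (I + 1) * (k0 * μ)) = 2 ^ I * μ / 2 := by
          field_simp
          ring
        have h3 : 2 ^ I * ((k0 : ℝ) * μ) / k0 = 2 ^ I * μ := by
          field_simp
        rw [h2, h3]
        nlinarith
    refine (ih.union h1).mono ?_ (le_of_eq (by ring))
    rintro z ⟨hz1, hz2⟩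
    rcases le_total (ht (re e (z - x))) (2 ^ I * (k0 * μ)) with h2 | h2
    · exact Or.inl ⟨hz1, h2⟩
    · exact Or.inr ⟨hz1, h2, hz2⟩

end count

section lgp

variable {K : Type} [Field K] [NumberField K] {n β : ℕ} {A : Fin β → AbV K n}

/-- the size of the bounds for points of height at most `T` -/
noncomputable def xT (T : ℝ) : ℕ := 2 + ⌈Real.log T⌉₊

/-- balls of small radius -/
lemma north_FC (A : Fin β → AbV K n) {γ : ℕ} (e : Fin γ ↪ Fin β) (j0 : Fin γ) (r : ℝ) :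
    ∃ N : ℕ, ∀ x : Bp A K, FC A N {z | ht (re e (z - x)) ≤ r} := by
  classical
  have hfin := CntAux.north (A (e j0)).toAbR r
  refine ⟨hfin.toFinset.card, fun x => ⟨hfin.toFinset.image (fun Q =>
    (⟨e j0, x (e j0) + Q⟩ : (b : Fin β) × (A b).Pt K)), Finset.card_image_le, fun P hP => ?_⟩⟩
  refine ⟨⟨e j0, P (e j0)⟩, ?_, rfl⟩
  rw [Finset.mem_image]
  refine ⟨(P - x) (e j0), ?_, ?_⟩
  · rw [Set.Finite.mem_toFinset]
    show logHeight ((P - x) (e j0)).1 ≤ r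
    refine le_trans ?_ hP
    exact Finset.single_le_sum (f := fun j => logHeight (vc (re e (P - x)) j))
      (fun b _ => logHeight_nonneg _) (Finset.mem_univ j0)
  · have h1 : x (e j0) + (P - x) (e j0) = P (e j0) := by
      rw [Pi.sub_apply]
      abel
    rw [h1]

lemma xT_pow (T : ℝ) (hT : 0 < T) : T ≤ 2 ^ (2 * xT T) := by
  have h1 : Real.log T ≤ xT T := by
    unfold xT
    push_cast
    have := Nat.le_ceil (Real.log T)
    linarith
  have h2 : T = Real.exp (Real.log T) := (Real.exp_log hT).symm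
  rw [h2]
  have h3 : Real.exp (Real.log T) ≤ Real.exp (xT T : ℝ) := Real.exp_le_exp.2 h1
  have h4 : Real.exp (xT T : ℝ) ≤ 4 ^ (xT T) := by
    rw [← Real.exp_one_pow]
    refine pow_le_pow_left₀ (Real.exp_pos _).le ?_ _
    have := Real.exp_one_lt_d9
    linarith
  have h5 : (2 : ℝ) ^ (2 * xT T) = 4 ^ (xT T) := by
    rw [pow_mul]
    norm_num
  have h6 : xT (Real.exp (Real.log T)) = xT T := by rw [Real.exp_log hT]
  rw [h6, h5]
  exact h3.trans h4

/-- **The points of a hypersurface of bounded degree lie in few fibres.** -/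
theorem lgp (hI : Indep A) (Γ : AddSubgroup (Bp A K)) (hΓ : Γ.FG) (d : ℕ) :
    ∃ a : ℕ, ∀ T : ℝ, 2 ≤ T → ∀ H : Set (Bp A K), AB.InHyp A d H →
      FC A ((xT T) ^ a) {P | (P ∈ Γ ∧ ht P ≤ T) ∧ P ∈ H} := by
  classical
  by_contra hc
  push Not at hc
  choose T hT H hH hFC using hc
  let X : ℕ → ℕ := fun m => xT (T m)
  have hX2 : ∀ m, 2 ≤ X m := fun m => Nat.le_add_right _ _
  let E : ℕ → Set (Bp A K) := fun m => {P | (P ∈ Γ ∧ ht P ≤ T m) ∧ P ∈ H m}
  have hle : ∀ k : ℕ, ∀ᶠ m in (UF : Filter ℕ), k ≤ m := fun k =>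
    Nat.hyperfilter_le_atTop (eventually_ge_atTop k)
  have hE : ¬ Sm A X E := by
    rintro ⟨a, ha⟩
    obtain ⟨m, h1, h2⟩ := (ha.and (hle a)).exists
    exact hFC m (h1.mono (le_refl _) (Nat.pow_le_pow_right (by have := hX2 m; omega) h2))
  obtain ⟨S, hSE, hS, hD⟩ := noe X E hE
  have hSne : ∀ᶠ m in (UF : Filter ℕ), (S m).Nonempty := by
    by_contra h
    rw [← Ultrafilter.eventually_not] at h
    refine hS ⟨0, ?_⟩
    filter_upwards [h] with m hm
    rw [Set.not_nonempty_iff_eq_empty] at hm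
    rw [hm]
    exact (FC.empty A).mono (le_refl _) (Nat.zero_le _)
  have hHF0 : HF (US S) β (Function.Embedding.refl (Fin β)) :=
    hf_of d S (fun m => (hH m).sub (fun P hP => (hSE m hP).2))
  -- minimal form
  have hex : ∃ γ : ℕ, ∃ e : Fin γ ↪ Fin β, HF (US S) γ e := ⟨β, _, hHF0⟩
  let γ := Nat.find hex
  obtain ⟨e, hHF⟩ := Nat.find_spec hex
  have hmin : ∀ γ' < γ, ∀ e' : Fin γ' ↪ Fin β, ¬ HF (US S) γ' e' := fun γ' h e' he =>
    Nat.find_min hex h ⟨e', he⟩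
  change Fin γ ↪ Fin β at e
  change HF (US S) γ e at hHF
  have hγ : 0 < γ := by
    by_contra h0
    have h0' : γ = 0 := Nat.le_zero.1 (not_lt.1 h0)
    obtain ⟨F, iF, iKF, iLF, iT, c, P, Φ, δ, h1, h2, h3⟩ := hHF
    choose! x hx using fun m => (id : (S m).Nonempty → (S m).Nonempty)
    have h4 := h3 (gp x) ⟨x, rfl, by filter_upwards [hSne] with m hm; exact hx m hm⟩
    apply h2
    rw [← h4]
    congr 1
    funext j
    exact absurd j.2 (by omega)
  let j0 : Fin γ := ⟨0, hγ⟩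
  -- `X` tends to infinity
  have hTinf : Inf T := by
    intro C
    by_contra h
    rw [← Ultrafilter.eventually_not] at h
    obtain ⟨c1, c2, T0, hc1, hT0, hcnt⟩ := cnt K n β A Γ hΓ
    have hfin : {P | P ∈ Γ ∧ ht P ≤ max C T0}.Finite := (hcnt _ (le_max_right _ _)).1
    refine hS ⟨hfin.toFinset.card, ?_⟩
    filter_upwards [h] with m hm
    refine ⟨hfin.toFinset.image (fun P => (⟨e j0, P (e j0)⟩ : (b : Fin β) × (A b).Pt K)),
      Finset.card_image_le.trans ?_, fun P hP => ⟨⟨e j0, P (e j0)⟩, ?_, rfl⟩⟩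
    · refine (Nat.lt_two_pow_self).le.trans ?_
      exact Nat.pow_le_pow_left (hX2 m) _
    · rw [Finset.mem_image]
      refine ⟨P, ?_, rfl⟩
      rw [Set.Finite.mem_toFinset]
      have h1 := (hSE m hP).1
      exact ⟨h1.1, h1.2.trans ((not_le.1 hm).le.trans (le_max_left _ _))⟩
  have hXinf : ∀ k : ℕ, ∀ᶠ m in (UF : Filter ℕ), k ≤ X m := by
    intro k
    filter_upwards [hTinf (Real.exp k)] with m hm
    have h1 : (k : ℝ) ≤ Real.log (T m) := by
      rw [Real.le_log_iff_exp_le (by have := hT m; linarith)]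
      exact hm
    have h2 := Nat.le_ceil (Real.log (T m))
    have h3 : k ≤ ⌈Real.log (T m)⌉₊ := by exact_mod_cast h1.trans h2
    exact h3.trans (Nat.le_add_left _ _)
  -- the exponents
  have hP : ∀ a : ℕ, ∀ᶠ m in (UF : Filter ℕ), ¬ FC A ((X m) ^ a) (S m) := by
    intro a
    rw [Ultrafilter.eventually_not]
    exact fun h => hS ⟨a, h⟩
  let am : ℕ → ℕ := fun m => Nat.findGreatest (fun a => ¬ FC A ((X m) ^ a) (S m)) m
  have ham : ∀ a : ℕ, ∀ᶠ m in (UF : Filter ℕ), a ≤ am m ∧ ¬ FC A ((X m) ^ (am m)) (S m) := by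
    intro a
    filter_upwards [hP a, hle a] with m h1 h2
    exact ⟨Nat.le_findGreatest h2 h1,
      Nat.findGreatest_spec (P := fun a => ¬ FC A ((X m) ^ a) (S m)) h2 h1⟩
  let M : ℕ → ℕ := fun m => (X m) ^ (am m / 2)
  have hM : ∀ a : ℕ, ∀ᶠ m in (UF : Filter ℕ), (X m) ^ a ≤ M m := by
    intro a
    filter_upwards [ham (2 * a)] with m hm
    refine Nat.pow_le_pow_right (by have := hX2 m; omega) ?_
    have := hm.1
    omega
  -- the minimal balls
  obtain ⟨Ch, hCh0, hCh⟩ := ht_add (K := K) (fun j => A (e j))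
  have hre : ∀ P : Bp A K, ht (re e P) ≤ ht P := by
    intro P
    unfold ht
    have h1 : ∑ j, logHeight (vc (re e P) j) =
        ∑ b ∈ Finset.univ.map e, logHeight (vc P b) := by
      rw [Finset.sum_map]
      rfl
    rw [h1]
    exact Finset.sum_le_univ_sum_of_nonneg (fun b => logHeight_nonneg _)
  have hdist : ∀ m, ∀ x ∈ S m, ∀ z ∈ S m, ht (re e (z - x)) ≤ 4 * T m + Ch := by
    intro m x hx z hz
    have h1 := hCh (re e z) (re e x)
    have h2 : re e z - re e x = re e (z - x) := rfl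
    rw [h2] at h1
    have h3 := (hre z).trans (hSE m hz).1.2
    have h4 := (hre x).trans (hSE m hx).1.2
    linarith
  let Pj : ℕ → ℕ → Prop := fun m j => ∃ x ∈ S m,
    ¬ FC A (M m) {z | z ∈ S m ∧ ht (re e (z - x)) ≤ 2 ^ j}
  have hPj : ∀ᶠ m in (UF : Filter ℕ), ∃ j, Pj m j := by
    filter_upwards [hSne, ham 0] with m ⟨x, hx⟩ h2
    obtain ⟨j, hj⟩ := pow_unbounded_of_one_lt (4 * T m + Ch) (by norm_num : (1 : ℝ) < 2)
    refine ⟨j, x, hx, fun h3 => h2.2 (h3.mono (fun z hz => ⟨hz, ?_⟩) ?_)⟩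
    · exact (hdist m x hx z hz).trans hj.le
    · exact Nat.pow_le_pow_right (by have := hX2 m; omega) (Nat.div_le_self _ _)
  let jm : ℕ → ℕ := fun m => if h : ∃ j, Pj m j then Nat.find h else 0
  have hjm1 : ∀ᶠ m in (UF : Filter ℕ), Pj m (jm m) := by
    filter_upwards [hPj] with m hm
    have h1 : jm m = Nat.find hm := dif_pos hm
    rw [h1]
    exact Nat.find_spec hm
  have hjm2 : ∀ᶠ m in (UF : Filter ℕ), ∀ j < jm m, ¬ Pj m j := by
    filter_upwards [hPj] with m hm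
    have h1 : jm m = Nat.find hm := dif_pos hm
    rw [h1]
    exact fun j hj => Nat.find_min hm hj
  have hjinf : ∀ k : ℕ, ∀ᶠ m in (UF : Filter ℕ), k ≤ jm m := by
    intro k
    obtain ⟨N, hN⟩ := north_FC A e j0 (2 ^ k)
    filter_upwards [hjm1, hM N] with m h1 h2
    by_contra h3
    push Not at h3
    obtain ⟨x, hx, h4⟩ := h1
    apply h4
    refine (hN x).mono ?_ ?_
    · rintro z ⟨-, hz⟩
      refine hz.trans (pow_le_pow_right₀ (by norm_num) h3.le)
    · refine ((Nat.lt_two_pow_self).le.trans ?_).trans h2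
      exact Nat.pow_le_pow_left (hX2 m) _
  have hxc : ∀ m, ∃ x : Bp A K, Pj m (jm m) → x ∈ S m ∧
      ¬ FC A (M m) {z | z ∈ S m ∧ ht (re e (z - x)) ≤ 2 ^ (jm m)} := by
    intro m
    by_cases h : Pj m (jm m)
    · obtain ⟨x, hx1, hx2⟩ := h
      exact ⟨x, fun _ => ⟨hx1, hx2⟩⟩
    · exact ⟨0, fun h1 => absurd h1 h⟩
  choose x hx using hxc
  have hμ : Inf (fun m => (2 : ℝ) ^ (jm m)) := by
    intro C
    obtain ⟨k, hk⟩ := pow_unbounded_of_one_lt C (by norm_num : (1 : ℝ) < 2)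
    filter_upwards [hjinf k] with m hm
    exact hk.le.trans (pow_le_pow_right₀ (by norm_num) hm)
  obtain ⟨k0, hk0, hgap⟩ := gap hI X S hD γ e hHF hmin M hM x (fun m => 2 ^ (jm m)) hμ (by
    filter_upwards [hjm1] with m hm
    exact (hx m hm).2)
  -- counting
  have hΓe : (Γ.map (reH e)).FG := by
    obtain ⟨s, hs⟩ := hΓ
    refine ⟨s.image (reH e), ?_⟩
    rw [← hs, AddMonoidHom.map_closure, Finset.coe_image]
  obtain ⟨C, hC⟩ := AB.color (fun j => A (e j)) (Γ.map (reH e)) hΓe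
  obtain ⟨N, hN⟩ := hC (1 / (4 * (k0 : ℝ))) (by
    have : (1 : ℝ) ≤ k0 := by exact_mod_cast hk0
    positivity)
  obtain ⟨c1, hc1⟩ := pow_unbounded_of_one_lt (4 + Ch) (by norm_num : (1 : ℝ) < 2)
  obtain ⟨m, h1, h2, h3, h4, h5, h6, h7, h8⟩ := (hgap.and (hjm1.and (hjm2.and ((hjinf 1).and
    ((hμ (4 * C)).and ((hμ 1).and ((ham 8).and (hXinf (N + c1 + 4))))))))).exists
  have hxm := hx m h2
  have h9 := count e Γ (x m) (S m) (fun z hz => Γ.sub_mem (hSE m hz).1.1 (hSE m hxm.1).1.1)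
    (M m) N k0 (2 ^ (jm m)) C hk0 h6 h5 hN (fun y hy => by
      have h10 := h3 (jm m - 1) (by omega)
      by_contra h11
      refine h10 ⟨y, hy, fun h12 => h11 (h12.mono ?_ (le_refl _))⟩
      rintro z ⟨hz1, hz2⟩
      refine ⟨hz1, hz2.trans (le_of_eq ?_)⟩
      obtain ⟨i, hi⟩ : ∃ i, jm m = i + 1 := ⟨jm m - 1, by omega⟩
      rw [hi, Nat.add_sub_cancel, pow_succ]
      ring) h1 (2 * X m + c1)
  refine h7.2 (h9.mono (fun z hz => ⟨hz, ?_⟩) ?_)
  · refine (hdist m _ hxm.1 z hz).trans ?_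
    have hT0 : (0 : ℝ) < T m := by have := hT m; linarith
    have h10 := xT_pow (T m) hT0
    have h11 : 4 * T m + Ch ≤ (4 + Ch) * T m := by
      have := hT m
      nlinarith
    have h12 : (1 : ℝ) ≤ (k0 : ℝ) * 2 ^ (jm m) := by
      have : (1 : ℝ) ≤ k0 := by exact_mod_cast hk0
      nlinarith
    have h13 : (0 : ℝ) < 2 ^ (2 * X m) := by positivity
    have h14 : (0 : ℝ) < 2 ^ c1 := by positivity
    calc 4 * T m + Ch ≤ (4 + Ch) * T m := h11
      _ ≤ 2 ^ c1 * 2 ^ (2 * X m) := mul_le_mul hc1.le h10 hT0.le h14.le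
      _ = 2 ^ (2 * X m + c1) * 1 := by rw [pow_add]; ring
      _ ≤ 2 ^ (2 * X m + c1) * (k0 * 2 ^ (jm m)) :=
        mul_le_mul_of_nonneg_left h12 (by positivity)
  · have h10 : N * M m * (2 * X m + c1 + 1) ≤ X m * M m * (X m * X m) := by
      refine Nat.mul_le_mul (Nat.mul_le_mul (by omega) (le_refl _)) ?_
      have h11 : 2 * X m + c1 + 1 ≤ 3 * X m := by omega
      refine h11.trans (Nat.mul_le_mul_right _ (by omega))
    refine h10.trans ?_
    have h11 : X m * M m * (X m * X m) = (X m) ^ (am m / 2 + 3) := by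
      change X m * (X m) ^ (am m / 2) * (X m * X m) = _
      rw [pow_add]
      ring
    rw [h11]
    refine Nat.pow_le_pow_right (by have := hX2 m; omega) ?_
    have := h7.1
    omega

end lgp

end Pool.Agent.J4H27.ML
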