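import Pool.Agent.J4H27.ML.Ult
import Pool.Agent.TH954.Z.Avg
import Pool.Agent.TH954.Z.Cnt

/-!
# Sequences of small height
-/

set_option autoImplicit false
set_option linter.unusedSectionVars false

open MvPolynomial Pool.Agent.TH954.X Pool.Agent.TH954.Z Filter NumberField Height

namespace Pool.Agent.J4H27.ML

section hts

variable {K : Type} [Field K] [NumberField K]

lemma prod_h {ι κ : Type} [Fintype ι] [Finite κ] (x : ι → K) (s : κ → ι → Fin 2) :
    logHeight (fun k => ∏ i, (![x i, 1] : Fin 2 → K) (s k i)) ≤ ∑ i, logHeight₁ (x i) := by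
  have h1 := logHeight_comp_le s
    (fun I : ι → Fin 2 => ∏ i, (![x i, 1] : Fin 2 → K) (I i))
  refine h1.trans (le_of_eq ?_)
  rw [logHeight_fun_prod_eq (x := fun i => (![x i, 1] : Fin 2 → K))]
  · exact Finset.sum_congr rfl fun i _ => (logHeight₁_eq_logHeight (x i)).symm
  · intro i h
    have h2 := congrFun h 1
    simp at h2

lemma vec_h {ι : Type} [Fintype ι] (x : ι → K) : logHeight x ≤ ∑ i, logHeight₁ (x i) := by
  classical
  have h1 := prod_h x (fun i j => if j = i then 0 else 1)
  refine le_trans (le_of_eq ?_) h1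
  congr 1
  funext i
  rw [Finset.prod_eq_single i]
  · simp
  · intro j _ hj
    simp [hj]
  · intro h
    exact absurd (Finset.mem_univ i) h

lemma pow_h (x : K) (d : ℕ) :
    logHeight (fun i : Fin (d + 1) => x ^ (i : ℕ)) ≤ d * logHeight₁ x := by
  classical
  have h1 := prod_h (fun _ : Fin d => x)
    (fun (i : Fin (d + 1)) (j : Fin d) => if (j : ℕ) < i then 0 else 1)
  rw [Finset.sum_const, Finset.card_univ, Fintype.card_fin, nsmul_eq_mul] at h1
  refine le_trans (le_of_eq ?_) h1
  congr 1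
  funext i
  have h2 : ∀ j : Fin d, (![x, 1] : Fin 2 → K) (if (j : ℕ) < i then 0 else 1) =
      if (j : ℕ) < i then x else 1 := by
    intro j
    split_ifs <;> rfl
  rw [Finset.prod_congr rfl fun j _ => h2 j, Finset.prod_ite, Finset.prod_const_one, mul_one,
    Finset.prod_const]
  congr 1
  have h3 : (Finset.univ.filter (fun j : Fin d => (j : ℕ) < i)).card =
      (Finset.range i).card := by
    refine Finset.card_bij (fun j _ => (j : ℕ)) ?_ ?_ ?_
    · intro j hj
      rw [Finset.mem_filter] at hj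
      exact Finset.mem_range.2 hj.2
    · intro j _ j' _ h
      exact Fin.ext h
    · intro j hj
      rw [Finset.mem_range] at hj
      have h4 := i.2
      refine ⟨⟨j, by omega⟩, ?_, rfl⟩
      rw [Finset.mem_filter]
      exact ⟨Finset.mem_univ _, hj⟩
  rw [h3, Finset.card_range]

lemma root_h (d : ℕ) (x : K) (c : Fin (d + 1) → K)
    (h : x ^ (d + 1) = ∑ i, c i * x ^ (i : ℕ)) :
    logHeight₁ x ≤ totalWeight K * Real.log (d + 1) + ∑ i, logHeight₁ (c i) := by
  classical
  let M : Fin 2 × Fin (d + 1) → K := fun p => if p.1 = 0 then c p.2 else if p.2 = 0 then 1 else 0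
  have h1 := logHeight_linearMap_apply_le M (fun i : Fin (d + 1) => x ^ (i : ℕ))
  have h2 : (fun j : Fin 2 => ∑ i, M (j, i) * x ^ (i : ℕ)) = ![x ^ (d + 1), 1] := by
    funext j
    fin_cases j
    · simp only [M, h]
      rfl
    · simp only [M]
      rw [Finset.sum_eq_single 0]
      · simp
      · intro i _ hi
        simp [hi]
      · intro h0
        exact absurd (Finset.mem_univ _) h0
  rw [h2, ← logHeight₁_eq_logHeight, logHeight₁_pow] at h1
  have h3 : logHeight M ≤ ∑ i, logHeight₁ (c i) := by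
    refine (vec_h M).trans (le_of_eq ?_)
    rw [Fintype.sum_prod_type, Fin.sum_univ_two]
    have h4 : ∑ i, logHeight₁ (M (1, i)) = 0 := by
      refine Finset.sum_eq_zero (fun i _ => ?_)
      simp only [M]
      rw [if_neg (by decide)]
      split_ifs
      · exact logHeight₁_one
      · exact logHeight₁_zero
    rw [h4, add_zero]
    refine Finset.sum_congr rfl (fun i _ => ?_)
    simp only [M]
    rw [if_pos trivial]
  have h5 := pow_h x d
  rw [Nat.card_eq_fintype_card, Fintype.card_fin] at h1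
  push_cast at h1
  linarith

lemma coord_h {n : ℕ} (v : Fin n → K) (hv : Normed v) (c : Fin n) :
    logHeight₁ (v c) ≤ logHeight v := by
  obtain ⟨i, hi, -⟩ := hv
  rw [logHeight₁_eq_logHeight]
  have h1 := logHeight_comp_le ![c, i] v
  refine le_trans (le_of_eq ?_) h1
  congr 1
  funext j
  fin_cases j
  · rfl
  · exact hi.symm

end hts

section sm

/-- `h` is small with respect to `R` -/
def Sl (R h : ℕ → ℝ) : Prop := ∀ ε : ℝ, 0 < ε → ∀ᶠ m in (UF : Filter ℕ), h m ≤ ε * R m

/-- `R` tends to infinity along the ultrafilter -/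
def Inf (R : ℕ → ℝ) : Prop := ∀ C : ℝ, ∀ᶠ m in (UF : Filter ℕ), C ≤ R m

variable {R : ℕ → ℝ}

lemma Sl.add {h h' : ℕ → ℝ} (h1 : Sl R h) (h2 : Sl R h') : Sl R (fun m => h m + h' m) := by
  intro ε hε
  filter_upwards [h1 (ε / 2) (by linarith), h2 (ε / 2) (by linarith)] with m hm hm'
  linarith

lemma Sl.mono {h h' : ℕ → ℝ} (h1 : Sl R h) (h2 : ∀ᶠ m in (UF : Filter ℕ), h' m ≤ h m) :
    Sl R h' := by
  intro ε hε
  filter_upwards [h1 ε hε, h2] with m hm hm'
  linarith

lemma Sl.const (hR : Inf R) (C : ℝ) : Sl R (fun _ => C) := by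
  intro ε hε
  filter_upwards [hR (C / ε)] with m hm
  rw [div_le_iff₀ hε] at hm
  linarith

lemma Sl.sum {ι : Type} (hR : Inf R) (s : Finset ι) {h : ι → ℕ → ℝ} (h1 : ∀ i ∈ s, Sl R (h i)) :
    Sl R (fun m => ∑ i ∈ s, h i m) := by
  classical
  induction s using Finset.induction_on with
  | empty =>
    simp only [Finset.sum_empty]
    exact Sl.const hR 0
  | insert a s ha ih =>
    simp only [Finset.sum_insert ha]
    exact (h1 a (Finset.mem_insert_self a s)).add
      (ih fun i hi => h1 i (Finset.mem_insert_of_mem hi))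

end sm

section field

variable {K : Type} [Field K] [NumberField K]

/-- the elements of the ultrapower represented by sequences of height `o(R)` -/
noncomputable def kR (K : Type) [Field K] [NumberField K] (R : ℕ → ℝ) (hR : Inf R) :
    IntermediateField K (UL K) where
  carrier := {a | ∃ f : ℕ → K, pi K f = a ∧ Sl R (fun m => logHeight₁ (f m))}
  mul_mem' := by
    rintro _ _ ⟨f, rfl, hf⟩ ⟨g, rfl, hg⟩
    exact ⟨f * g, map_mul _ _ _, (hf.add hg).mono (Eventually.of_forall fun m =>
      logHeight₁_mul_le _ _)⟩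
  add_mem' := by
    rintro _ _ ⟨f, rfl, hf⟩ ⟨g, rfl, hg⟩
    exact ⟨f + g, map_add _ _ _, (((Sl.const hR _).add hf).add hg).mono
      (Eventually.of_forall fun m => logHeight₁_add_le _ _)⟩
  inv_mem' := by
    rintro _ ⟨f, rfl, hf⟩
    refine ⟨fun m => (f m)⁻¹, ?_, ?_⟩
    · rfl
    · simp only [logHeight₁_inv]
      exact hf
  algebraMap_mem' := by
    intro a
    exact ⟨fun _ => a, rfl, Sl.const hR _⟩

lemma mem_kR {R : ℕ → ℝ} {hR : Inf R} {f : ℕ → K} :
    pi K f ∈ kR K R hR ↔ Sl R (fun m => logHeight₁ (f m)) := by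
  constructor
  · rintro ⟨g, hg, hg'⟩
    rw [pi_eq] at hg
    refine hg'.mono ?_
    filter_upwards [hg] with m hm
    rw [hm]
  · intro h
    exact ⟨f, rfl, h⟩

lemma kR_closed {R : ℕ → ℝ} {hR : Inf R} {a : UL K} (ha : IsAlgebraic (kR K R hR) a) :
    a ∈ kR K R hR := by
  have hint : IsIntegral (kR K R hR) a := ha.isIntegral
  set p := minpoly (kR K R hR) a with hp
  have hmon : p.Monic := minpoly.monic hint
  have hroot : Polynomial.aeval a p = 0 := minpoly.aeval _ _
  have hdeg : 0 < p.natDegree := minpoly.natDegree_pos hint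
  obtain ⟨d, hd⟩ : ∃ d, p.natDegree = d + 1 := ⟨p.natDegree - 1, by omega⟩
  obtain ⟨f, rfl⟩ := pi_surj a
  have hc : ∀ i : Fin (d + 1), ∃ g : ℕ → K, pi K g = -((p.coeff i : kR K R hR) : UL K) ∧
      Sl R (fun m => logHeight₁ (g m)) := by
    intro i
    exact (kR K R hR).neg_mem (p.coeff i).2
  choose g hg hg' using hc
  have h1 : pi K (f ^ (d + 1)) = pi K (∑ i : Fin (d + 1), g i * f ^ (i : ℕ)) := by
    rw [Polynomial.aeval_eq_sum_range, hd, Finset.sum_range_succ] at hroot
    have h2 : p.coeff (d + 1) = 1 := by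
      rw [← hd]
      exact hmon.coeff_natDegree
    rw [h2, one_smul, Finset.sum_range] at hroot
    rw [map_sum, map_pow]
    rw [eq_neg_of_add_eq_zero_right hroot, ← Finset.sum_neg_distrib]
    refine Finset.sum_congr rfl (fun i _ => ?_)
    rw [map_mul, map_pow, hg, neg_mul]
    rfl
  rw [pi_eq] at h1
  rw [mem_kR]
  refine ((Sl.const hR (totalWeight K * Real.log (d + 1))).add
    (Sl.sum hR Finset.univ (fun i _ => hg' i))).mono ?_
  filter_upwards [h1] with m hm
  refine root_h d (f m) (fun i => g i m) ?_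
  rw [Pi.pow_apply, Finset.sum_apply] at hm
  exact hm

end field

section pts

variable {K : Type} [Field K] [NumberField K] {n β : ℕ} {A : Fin β → AbV K n}

lemma sl_of_mem {R : ℕ → ℝ} {hR : Inf R} {P : ℕ → Bp A K}
    (h : ∀ b c, (gp P b).1 c ∈ kR K R hR) : Sl R (fun m => ht (P m)) := by
  have h1 : Sl R (fun m => ∑ b, ∑ c, logHeight₁ ((P m b).1 c)) :=
    Sl.sum hR _ fun b _ => Sl.sum hR _ fun c _ => mem_kR.1 (h b c)
  refine h1.mono (Eventually.of_forall fun m => ?_)
  exact Finset.sum_le_sum fun b _ => vec_h _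

lemma mem_of_sl {R : ℕ → ℝ} {hR : Inf R} {P : ℕ → Bp A K} (h : Sl R (fun m => ht (P m)))
    (b : Fin β) (c : Fin n) : (gp P b).1 c ∈ kR K R hR := by
  rw [gp_val, mem_kR]
  refine h.mono (Eventually.of_forall fun m => ?_)
  refine (coord_h _ (P m b).2.1 c).trans ?_
  exact Finset.single_le_sum (f := fun b => logHeight (vc (P m) b))
    (fun b _ => logHeight_nonneg _) (Finset.mem_univ b)

/-- a multiple of a point has larger height -/
lemma ht_mul (A : Fin β → AbV K n) : ∃ C : ℝ, 0 ≤ C ∧ ∀ (N : ℕ) (P : Bp A K), 0 < N →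
    ht P ≤ ht (N • P) + C := by
  have hcan : ∀ b, ∃ C : ℝ, 0 ≤ C ∧ ∃ q : (A b).Pt K → ℝ, (∀ P, 0 ≤ q P) ∧
      (∀ P Q, q (P + Q) + q (P - Q) = 2 * (q P + q Q)) ∧
      (∀ P, |q P - logHeight P.1| ≤ C) := by
    intro b
    obtain ⟨C, hC, hC'⟩ := Pool.Agent.TH954.X.canA (A b).toAbR
    obtain ⟨q, hq1, hq2, hq3⟩ := hC' K
    exact ⟨C * Module.finrank ℚ K, by positivity, q, hq1, hq2, hq3⟩
  choose C hC q hq1 hq2 hq3 using hcan
  have hmul : ∀ b (P : (A b).Pt K) (N : ℕ), q b (N • P) = (N : ℝ) ^ 2 * q b P ∧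
      q b ((N + 1) • P) = ((N : ℝ) + 1) ^ 2 * q b P := by
    intro b P N
    have h0 : q b 0 = 0 := by
      have := hq2 b 0 0
      rw [add_zero, sub_zero] at this
      linarith
    induction N with
    | zero =>
      refine ⟨?_, ?_⟩
      · rw [zero_smul, h0]
        push_cast
        ring
      · rw [zero_add, one_smul]
        push_cast
        ring
    | succ N ih =>
      refine ⟨?_, ?_⟩
      · rw [ih.2]
        push_cast
        ring
      · have h1 := hq2 b ((N + 1) • P) P
        have h2 : (N + 1) • P - P = N • P := by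
          rw [add_smul, one_smul, add_sub_cancel_right]
        have h3 : (N + 1) • P + P = (N + 1 + 1) • P := by
          rw [add_smul (N + 1) 1 P, one_smul]
        rw [h2, h3, ih.1, ih.2] at h1
        push_cast
        linarith
  refine ⟨2 * ∑ b, C b, mul_nonneg (by norm_num) (Finset.sum_nonneg fun b _ => hC b),
    fun N P hN => ?_⟩
  unfold ht
  rw [Finset.mul_sum, ← Finset.sum_add_distrib]
  refine Finset.sum_le_sum (fun b _ => ?_)
  have h1 := hq3 b (P b)
  have h2 := hq3 b ((N • P) b)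
  have h3 := (hmul b (P b) N).1
  have h4 : (N • P) b = N • P b := rfl
  rw [h4] at h2
  rw [abs_le] at h1 h2
  have h5 : q b (P b) ≤ (N : ℝ) ^ 2 * q b (P b) := by
    have h6 : (1 : ℝ) ≤ (N : ℝ) ^ 2 := by
      have h7 : (1 : ℝ) ≤ N := by exact_mod_cast hN
      nlinarith
    nlinarith [hq1 b (P b)]
  have h8 : vc P b = (P b).1 := rfl
  have h9 : vc (N • P) b = (N • P b).1 := rfl
  rw [h8, h9]
  linarith

end pts

end Pool.Agent.J4H27.ML
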