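import Pool.Agent.J4H27.ML.Noe
import Pool.Agent.J4H27.ML.Sml

/-!
# The gap principle
-/

set_option autoImplicit false
set_option linter.unusedSectionVars false

open MvPolynomial Pool.Agent.TH954.X Pool.Agent.TH954.Z Filter NumberField Height

namespace Pool.Agent.J4H27.ML

section gap

variable {K : Type} [Field K] [NumberField K] {n β : ℕ} {A : Fin β → AbV K n}

/-- coordinates over the small field of a difference of sequences -/
lemma lift_sl {R : ℕ → ℝ} (hR : Inf R) {γ : ℕ} (e : Fin γ ↪ Fin β) (P x : ℕ → Bp A K)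
    (h : Sl R (fun m => ht (re e (P m - x m)))) :
    ∃ t : Bp (fun j => A (e j)) (kR K R hR),
      mp (IsScalarTower.toAlgHom K (kR K R hR) (UL K)) t = re e (gp P) - re e (gp x) := by
  have h1 : re e (gp P) - re e (gp x) = gp (fun m => re e (P m - x m)) := by
    rw [gp_re, gp_re, ← (gp_both _ _).2]
    rfl
  refine lift_pt _ _ (fun b c => ?_)
  have h2 := mem_of_sl (hR := hR) h b c
  rw [h1]
  exact ⟨⟨_, h2⟩, rfl⟩

theorem gap (hI : Indep A) (X : ℕ → ℕ) (S : ℕ → Set (Bp A K)) (hD : Dich A X S) (γ : ℕ)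
    (e : Fin γ ↪ Fin β) (hHF : HF (US S) γ e)
    (hmin : ∀ γ' < γ, ∀ e' : Fin γ' ↪ Fin β, ¬ HF (US S) γ' e')
    (M : ℕ → ℕ) (hM : ∀ a : ℕ, ∀ᶠ m in (UF : Filter ℕ), (X m) ^ a ≤ M m)
    (x : ℕ → Bp A K) (μ : ℕ → ℝ) (hμ : Inf μ)
    (hx : ∀ᶠ m in (UF : Filter ℕ), ¬ FC A (M m) {z | z ∈ S m ∧ ht (re e (z - x m)) ≤ μ m}) :
    ∃ k0 : ℕ, 1 ≤ k0 ∧ ∀ᶠ m in (UF : Filter ℕ), ∀ y : Bp A K, ∀ r : ℝ, (k0 : ℝ) * μ m ≤ r →
      r ≤ ht (re e (y - x m)) → FC A (M m) {z | z ∈ S m ∧ ht (re e (z - y)) ≤ r / k0} := by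
  classical
  by_contra hc
  push Not at hc
  let Q : ℕ → ℕ → Prop := fun m k => ∃ (y : Bp A K) (r : ℝ), (k : ℝ) * μ m ≤ r ∧
    r ≤ ht (re e (y - x m)) ∧ ¬ FC A (M m) {z | z ∈ S m ∧ ht (re e (z - y)) ≤ r / k}
  have hQ : ∀ k : ℕ, 1 ≤ k → ∀ᶠ m in (UF : Filter ℕ), Q m k := by
    intro k hk
    exact hc k hk
  let kk : ℕ → ℕ := fun m => Nat.findGreatest (fun k => 1 ≤ k ∧ Q m k) m
  have hle : ∀ k : ℕ, ∀ᶠ m in (UF : Filter ℕ), k ≤ m := fun k =>
    Nat.hyperfilter_le_atTop (eventually_ge_atTop k)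
  have hkk : ∀ k : ℕ, ∀ᶠ m in (UF : Filter ℕ), k ≤ kk m ∧ 1 ≤ kk m ∧ Q m (kk m) := by
    intro k
    filter_upwards [hQ (k + 1) (Nat.le_add_left 1 k), hle (k + 1)] with m h1 h2
    have h3 : k + 1 ≤ kk m := Nat.le_findGreatest h2 ⟨Nat.le_add_left 1 k, h1⟩
    have h4 := Nat.findGreatest_spec (P := fun k => 1 ≤ k ∧ Q m k) h2
      ⟨Nat.le_add_left 1 k, h1⟩
    exact ⟨by omega, h4.1, h4.2⟩
  have hch : ∀ m, ∃ (y : Bp A K) (r : ℝ), Q m (kk m) → (kk m : ℝ) * μ m ≤ r ∧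
    r ≤ ht (re e (y - x m)) ∧ ¬ FC A (M m) {z | z ∈ S m ∧ ht (re e (z - y)) ≤ r / kk m} := by
    intro m
    by_cases h : Q m (kk m)
    · obtain ⟨y, r, h1⟩ := h
      exact ⟨y, r, fun _ => h1⟩
    · exact ⟨0, 0, fun h1 => absurd h1 h⟩
  choose y r hyr using hch
  have hR : Inf r := by
    intro C
    filter_upwards [hkk 1, hμ (max C 0)] with m h1 h2
    have h3 := (hyr m h1.2.2).1
    have h4 : (1 : ℝ) ≤ kk m := by exact_mod_cast h1.1
    have h5 : 0 ≤ μ m := (le_max_right _ _).trans h2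
    have h6 : C ≤ μ m := (le_max_left _ _).trans h2
    nlinarith
  have hsl : ∀ h : ℕ → ℝ, (∀ᶠ m in (UF : Filter ℕ), h m ≤ r m / kk m) → Sl r h := by
    intro h hh ε hε
    obtain ⟨k, hk⟩ := exists_nat_ge (1 / ε)
    filter_upwards [hh, hkk k, hR 0] with m h1 h2 h3
    refine h1.trans ?_
    have h4 : (1 : ℝ) ≤ kk m := by exact_mod_cast h2.2.1
    have h5 : (k : ℝ) ≤ kk m := by exact_mod_cast h2.1
    rw [div_le_iff₀ (by linarith)]
    have h6 : 1 ≤ ε * kk m := by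
      have h7 : 1 / ε ≤ kk m := hk.trans h5
      rw [div_le_iff₀ hε] at h7
      linarith
    nlinarith
  let S0 : ℕ → Set (Bp A K) := fun m => {z | z ∈ S m ∧ ht (re e (z - x m)) ≤ μ m}
  let S1 : ℕ → Set (Bp A K) := fun m => {z | z ∈ S m ∧ ht (re e (z - y m)) ≤ r m / kk m}
  have hn0 : ¬ Sm A X S0 := by
    rintro ⟨a, ha⟩
    obtain ⟨m, h1, h2, h3⟩ := (ha.and ((hM a).and hx)).exists
    exact h3 (h1.mono (le_refl _) h2)
  have hn1 : ¬ Sm A X S1 := by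
    rintro ⟨a, ha⟩
    obtain ⟨m, h1, h2, h3⟩ := (ha.and ((hM a).and (hkk 1))).exists
    exact (hyr m h3.2.2).2.2 (h1.mono (le_refl _) h2)
  obtain ⟨N, hN0, hN⟩ := algF (k := kR K r hR) hI (US S) (US S0) (US S1) (gp x) (gp y) γ e
    hHF hmin (US_mono fun m P hP => hP.1) (US_mono fun m P hP => hP.1) (by
      rintro _ ⟨P, rfl, hP⟩
      refine lift_sl hR e P x (hsl _ ?_)
      filter_upwards [hP, hkk 1, hR 0] with m h1 h2 h3
      refine h1.2.trans ?_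
      have h4 : (1 : ℝ) ≤ kk m := by exact_mod_cast h2.1
      rw [le_div_iff₀ (by linarith)]
      have h5 := (hyr m h2.2.2).1
      linarith) (by
      rintro _ ⟨P, rfl, hP⟩
      refine lift_sl hR e P y (hsl _ ?_)
      filter_upwards [hP] with m h1
      exact h1.2)
    (fun Φ δ hΦ hV => dens hD (fun m P hP => hP.1) hn0 Φ δ hΦ hV)
    (fun Φ δ hΦ hV => dens hD (fun m P hP => hP.1) hn1 Φ δ hΦ hV)
  have h1 : N • (re e (gp y) - re e (gp x)) = gp (fun m => N • re e (y m - x m)) := by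
    rw [gp_nsmul, gp_re, gp_re, ← (gp_both _ _).2]
    rfl
  have h2 : Sl r (fun m => ht (N • re e (y m - x m))) := by
    refine sl_of_mem (hR := hR) (fun b c => ?_)
    have h3 := hN b c
    rw [h1] at h3
    exact kR_closed h3
  obtain ⟨C, hC0, hC⟩ := ht_mul (K := K) (fun j => A (e j))
  obtain ⟨m, h3, h4, h5⟩ := ((h2 (1 / 4) (by norm_num)).and ((hR (4 * C + 1)).and (hkk 1))).exists
  have h6 := (hyr m h5.2.2).2.1
  have h7 := hC N (re e (y m - x m)) hN0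
  linarith

end gap

end Pool.Agent.J4H27.ML
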