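import Pool.Agent.J4H27.ML.Ult
import Pool.Agent.J4H27.AB.Clu

/-!
# Sets not covered by few fibres
-/

set_option autoImplicit false
set_option linter.unusedSectionVars false

open MvPolynomial Pool.Agent.TH954.X Pool.Agent.TH954.Z Filter

namespace Pool.Agent.J4H27.ML

section fc

variable {K : Type} [Field K] {n β : ℕ}

/-- `E` is covered by at most `N` fibres of the projections to the factors -/
def FC (A : Fin β → AbV K n) (N : ℕ) (E : Set (Bp A K)) : Prop :=
  ∃ s : Finset ((b : Fin β) × (A b).Pt K), s.card ≤ N ∧ ∀ P ∈ E, ∃ c ∈ s, P c.1 = c.2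

variable {A : Fin β → AbV K n}

lemma FC.mono {N N' : ℕ} {E E' : Set (Bp A K)} (h : FC A N E) (hE : E' ⊆ E) (hN : N ≤ N') :
    FC A N' E' := by
  obtain ⟨s, h1, h2⟩ := h
  exact ⟨s, h1.trans hN, fun P hP => h2 P (hE hP)⟩

lemma FC.union {N N' : ℕ} {E E' : Set (Bp A K)} (h : FC A N E) (h' : FC A N' E') :
    FC A (N + N') (E ∪ E') := by
  classical
  obtain ⟨s, h1, h2⟩ := h
  obtain ⟨s', h1', h2'⟩ := h'
  refine ⟨s ∪ s', (Finset.card_union_le _ _).trans (add_le_add h1 h1'), ?_⟩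
  rintro P (hP | hP)
  · obtain ⟨c, hc, h⟩ := h2 P hP
    exact ⟨c, Finset.mem_union_left _ hc, h⟩
  · obtain ⟨c, hc, h⟩ := h2' P hP
    exact ⟨c, Finset.mem_union_right _ hc, h⟩

lemma FC.empty (A : Fin β → AbV K n) : FC A 0 (∅ : Set (Bp A K)) :=
  ⟨∅, le_rfl, fun _ hP => absurd hP (Set.notMem_empty _)⟩

lemma FC.biUnion {ι : Type} (s : Finset ι) {N : ℕ} {E : ι → Set (Bp A K)}
    (h : ∀ i ∈ s, FC A N (E i)) : FC A (s.card * N) (⋃ i ∈ s, E i) := by
  classical
  induction s using Finset.induction_on with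
  | empty =>
    have : (⋃ i ∈ (∅ : Finset ι), E i) = ∅ := by simp
    rw [this]
    exact (FC.empty A).mono (le_refl _) (Nat.zero_le _)
  | insert a s ha ih =>
    rw [Finset.set_biUnion_insert, Finset.card_insert_of_notMem ha]
    have h1 := (h a (Finset.mem_insert_self a s)).union
      (ih fun i hi => h i (Finset.mem_insert_of_mem hi))
    refine h1.mono (le_refl _) (le_of_eq ?_)
    ring

lemma FC.col {M N : ℕ} {E : Set (Bp A K)} (col : Bp A K → Fin M)
    (h : ∀ c, FC A N {P | P ∈ E ∧ col P = c}) : FC A (M * N) E := by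
  have h1 := FC.biUnion (Finset.univ : Finset (Fin M))
    (E := fun c => {P | P ∈ E ∧ col P = c}) (fun c _ => h c)
  rw [Finset.card_univ, Fintype.card_fin] at h1
  refine h1.mono (fun P hP => ?_) (le_refl _)
  simp only [Finset.mem_univ, Set.iUnion_true, Set.mem_iUnion, Set.mem_setOf_eq]
  exact ⟨col P, hP, rfl⟩

end fc

section sm

variable {K : Type} [Field K] {n β : ℕ}

/-- the set `E m` is covered by at most `X m ^ a` fibres -/
def Sm (A : Fin β → AbV K n) (X : ℕ → ℕ) (E : ℕ → Set (Bp A K)) : Prop :=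
  ∃ a : ℕ, ∀ᶠ m in (UF : Filter ℕ), FC A ((X m) ^ a) (E m)

variable {A : Fin β → AbV K n}

lemma Sm.mono {X : ℕ → ℕ} {E E' : ℕ → Set (Bp A K)} (h : Sm A X E)
    (hE : ∀ᶠ m in (UF : Filter ℕ), E' m ⊆ E m) : Sm A X E' := by
  obtain ⟨a, ha⟩ := h
  refine ⟨a, ?_⟩
  filter_upwards [ha, hE] with m h1 h2
  exact h1.mono h2 (le_refl _)

/-- the points over the ultrapower given by sequences in the sets `S m` -/
def US (S : ℕ → Set (Bp A K)) : Set (Bp A (UL K)) :=
  {x | ∃ P : ℕ → Bp A K, gp P = x ∧ ∀ᶠ m in (UF : Filter ℕ), P m ∈ S m}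

lemma van_US {S : ℕ → Set (Bp A K)} {Φ : MvPolynomial (Fin β × Fin n) (UL K)} :
    Van (US S) Φ ↔ ∀ᶠ m in (UF : Filter ℕ), ∀ P ∈ S m, ev (rp Φ m) (vc P) = 0 := by
  classical
  constructor
  · intro h
    by_contra hc
    rw [← Ultrafilter.eventually_not] at hc
    have h1 : ∀ m, ∃ P : Bp A K, (¬ ∀ P ∈ S m, ev (rp Φ m) (vc P) = 0) →
        P ∈ S m ∧ ev (rp Φ m) (vc P) ≠ 0 := by
      intro m
      by_cases hm : ∀ P ∈ S m, ev (rp Φ m) (vc P) = 0
      · exact ⟨0, fun h => absurd hm h⟩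
      · have hm' := hm
        push Not at hm'
        obtain ⟨P, hP1, hP2⟩ := hm'
        exact ⟨P, fun _ => ⟨hP1, hP2⟩⟩
    choose P hP using h1
    have h2 : ev Φ (vc (gp P)) = 0 := by
      refine h _ ⟨P, rfl, ?_⟩
      filter_upwards [hc] with m hm
      exact (hP m hm).1
    rw [ev_gp, pi_zero] at h2
    obtain ⟨m, hm1, hm2⟩ := (h2.and hc).exists
    exact (hP m hm2).2 hm1
  · rintro h _ ⟨P, rfl, hP⟩
    rw [ev_gp, pi_zero]
    filter_upwards [h, hP] with m h1 h2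
    exact h1 _ h2

/-- every form vanishes on `S` or on a small part of `S` only -/
def Dich (A : Fin β → AbV K n) (X : ℕ → ℕ) (S : ℕ → Set (Bp A K)) : Prop :=
  ∀ (Φ : MvPolynomial (Fin β × Fin n) (UL K)) (δ : Fin β → ℕ), MH δ Φ →
    Van (US S) Φ ∨ Sm A X (fun m => {P | P ∈ S m ∧ ev (rp Φ m) (vc P) = 0})

theorem noe (X : ℕ → ℕ) (E : ℕ → Set (Bp A K)) (hE : ¬ Sm A X E) :
    ∃ S : ℕ → Set (Bp A K), (∀ m, S m ⊆ E m) ∧ ¬ Sm A X S ∧ Dich A X S := by
  classical
  let Sf : Set (MvPolynomial (Fin β × Fin n) (UL K)) → ℕ → Set (Bp A K) := fun f m =>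
    {P | P ∈ E m ∧ ∀ Φ ∈ f, ev (rp Φ m) (vc P) = 0}
  let Is : Set (Ideal (MvPolynomial (Fin β × Fin n) (UL K))) :=
    {I | ∃ f : Finset (MvPolynomial (Fin β × Fin n) (UL K)), (∀ Φ ∈ f, ∃ δ, MH δ Φ) ∧
      I = Ideal.span (f : Set (MvPolynomial (Fin β × Fin n) (UL K))) ∧
      ¬ Sm A X (Sf (f : Set (MvPolynomial (Fin β × Fin n) (UL K))))}
  have hne : Is.Nonempty := by
    refine ⟨_, ∅, ?_, rfl, ?_⟩
    · intro Φ hΦ
      exact absurd hΦ (Finset.notMem_empty _)
    · intro h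
      refine hE (h.mono (Eventually.of_forall fun m P hP => ⟨hP, ?_⟩))
      intro Φ hΦ
      rw [Finset.coe_empty] at hΦ
      exact absurd hΦ (Set.notMem_empty _)
  obtain ⟨I, ⟨f, hf1, hf2, hf3⟩, hmax⟩ := set_has_maximal_iff_noetherian.2
    (inferInstance : IsNoetherian (MvPolynomial (Fin β × Fin n) (UL K))
      (MvPolynomial (Fin β × Fin n) (UL K))) Is hne
  refine ⟨Sf f, fun m P hP => hP.1, hf3, ?_⟩
  intro Φ δ hΦ
  by_cases hs : Sm A X (fun m => {P | P ∈ Sf f m ∧ ev (rp Φ m) (vc P) = 0})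
  · exact Or.inr hs
  left
  have h1 : Ideal.span ((insert Φ f : Finset _) : Set (MvPolynomial (Fin β × Fin n) (UL K)))
      ∈ Is := by
    refine ⟨insert Φ f, ?_, rfl, ?_⟩
    · intro Ψ hΨ
      rcases Finset.mem_insert.1 hΨ with rfl | h
      · exact ⟨δ, hΦ⟩
      · exact hf1 Ψ h
    · intro h
      refine hs (h.mono (Eventually.of_forall fun m P hP => ⟨hP.1.1, ?_⟩))
      intro Ψ hΨ
      rw [Finset.coe_insert] at hΨ
      rcases hΨ with rfl | h
      · exact hP.2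
      · exact hP.1.2 Ψ h
  have h2 := hmax _ h1
  have h3 : I ≤ Ideal.span ((insert Φ f : Finset _) : Set (MvPolynomial (Fin β × Fin n) (UL K))) := by
    rw [hf2]
    refine Ideal.span_mono ?_
    rw [Finset.coe_insert]
    exact Set.subset_insert _ _
  have h4 : Φ ∈ I := by
    have h5 : I = Ideal.span ((insert Φ f : Finset _) : Set (MvPolynomial (Fin β × Fin n) (UL K))) :=
      h3.eq_of_not_lt h2
    rw [h5]
    refine Ideal.subset_span ?_
    rw [Finset.coe_insert]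
    exact Set.mem_insert _ _
  rintro _ ⟨P, rfl, hP⟩
  have h5 : I ≤ RingHom.ker (aeval (fun q : Fin β × Fin n => vc (gp P) q.1 q.2) :
      MvPolynomial (Fin β × Fin n) (UL K) →ₐ[UL K] (UL K)) := by
    rw [hf2]
    refine Ideal.span_le.2 (fun Ψ hΨ => ?_)
    change ev Ψ (vc (gp P)) = 0
    rw [ev_gp, pi_zero]
    filter_upwards [hP] with m hm
    exact hm.2 Ψ hΨ
  exact h5 h4

lemma dens {X : ℕ → ℕ} {S S' : ℕ → Set (Bp A K)} (hS : Dich A X S) (hS' : ∀ m, S' m ⊆ S m)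
    (hn : ¬ Sm A X S') (Φ : MvPolynomial (Fin β × Fin n) (UL K)) (δ : Fin β → ℕ) (hΦ : MH δ Φ)
    (hV : Van (US S') Φ) : Van (US S) Φ := by
  refine (hS Φ δ hΦ).resolve_right (fun h => hn (h.mono ?_))
  rw [van_US] at hV
  filter_upwards [hV] with m hm P hP
  exact ⟨hS' m hP, hm P hP⟩

lemma US_mono {S S' : ℕ → Set (Bp A K)} (h : ∀ m, S' m ⊆ S m) : US S' ⊆ US S := by
  rintro _ ⟨P, rfl, hP⟩
  refine ⟨P, rfl, ?_⟩
  filter_upwards [hP] with m hm
  exact h m hm

end sm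

section form

/-- a bounded sequence of forms over a field gives a form over the ultrapower -/
lemma ul_poly {F : Type} [Field F] {ι : Type} [Fintype ι] {n : ℕ}
    (Φ : ℕ → MvPolynomial (ι × Fin n) F) (δ : ι → ℕ)
    (hΦ : ∀ᶠ m in (UF : Filter ℕ), MH δ (Φ m)) :
    ∃ Ψ : MvPolynomial (ι × Fin n) (UL F), MH δ Ψ ∧ ∀ v : ℕ → ι → Fin n → F,
      ev Ψ (fun j c => pi F (fun m => v m j c)) = pi F (fun m => ev (Φ m) (v m)) := by
  classical
  let T : Finset ((ι × Fin n) →₀ ℕ) :=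
    Finset.Iic (Finsupp.equivFunOnFinite.symm (fun p : ι × Fin n => δ p.1))
  have hT : ∀ m, MH δ (Φ m) → (Φ m).support ⊆ T := by
    intro m hm s hs
    refine Finset.mem_Iic.2 (fun p => ?_)
    change s p ≤ δ p.1
    rw [← hm s hs p.1]
    exact Finset.single_le_sum (f := fun c => s (p.1, c)) (fun _ _ => Nat.zero_le _)
      (Finset.mem_univ p.2)
  refine ⟨∑ s ∈ T, monomial s (pi F (fun m => coeff s (Φ m))), ?_, ?_⟩
  · intro s hs j
    rw [mem_support_iff, coeff_sum] at hs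
    obtain ⟨t, ht, hne⟩ := Finset.exists_ne_zero_of_sum_ne_zero hs
    rw [coeff_monomial] at hne
    split_ifs at hne with h
    · subst h
      rw [Ne, pi_zero, ← Ultrafilter.eventually_not] at hne
      obtain ⟨m, hm1, hm2⟩ := (hne.and hΦ).exists
      exact hm2 t (mem_support_iff.2 hm1) j
    · exact absurd rfl hne
  · intro v
    unfold ev
    rw [map_sum]
    have h1 : ∀ᶠ m in (UF : Filter ℕ), (fun m => aeval (fun p : ι × Fin n => v m p.1 p.2) (Φ m)) m =
        (∑ s ∈ T, (fun m => coeff s (Φ m)) *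
          ∏ p : ι × Fin n, (fun m => v m p.1 p.2) ^ s p : ℕ → F) m := by
      filter_upwards [hΦ] with m hm
      rw [Finset.sum_apply, aeval_def, eval₂_eq']
      refine (Finset.sum_subset (hT m hm) (fun s _ hs => ?_)).trans ?_
      · rw [notMem_support_iff.1 hs, map_zero, zero_mul]
      · refine Finset.sum_congr rfl (fun s _ => ?_)
        rw [Pi.mul_apply, Finset.prod_apply]
        rfl
    rw [← pi_eq] at h1
    refine Eq.trans ?_ h1.symm
    rw [map_sum]
    refine Finset.sum_congr rfl (fun s _ => ?_)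
    rw [aeval_monomial, Finsupp.prod_fintype _ _ (fun p => pow_zero _), map_mul, map_prod]
    simp only [map_pow]
    rfl

variable {K : Type} [Field K] {n β : ℕ} {A : Fin β → AbV K n}

/-- a sequence of hypersurfaces of bounded degree -/
theorem hf_of (d : ℕ) (S : ℕ → Set (Bp A K)) (hS : ∀ m, AB.InHyp A d (S m)) :
    HF (US S) β (Function.Embedding.refl (Fin β)) := by
  classical
  choose Φ τ hτ hMH hNZ hv using hS
  obtain ⟨t, ht⟩ := finU (fun m => (fun b => ⟨τ m b, Nat.lt_succ_of_le (hτ m b)⟩ :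
    Fin β → Fin (d + 1)))
  have ht' : ∀ᶠ m in (UF : Filter ℕ), τ m = fun b => (t b : ℕ) := by
    filter_upwards [ht] with m hm
    rw [← hm]
  obtain ⟨Ω, iΩ, iKΩ, -, u, hu, hgen⟩ := Gen.generic (fun b => (A b).toAbR.blk)
    (fun b => by
      intro F _ _ g h a b' hg hh h1 h2
      exact (A b).irr F g h a b' hg hh h1 h2)
    (fun b => by
      intro F _ _ g a hg h0
      exact (A b).ind F g a hg h0)
  choose P0 hP0 using hu
  let P0' : Bp A Ω := P0
  have hP0' : vc P0' = u := funext fun b => hP0 b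
  let Φ' : ℕ → MvPolynomial (Fin β × Fin n) Ω := fun m => map (algebraMap K Ω) (Φ m)
  have hev : ∀ (m : ℕ) (v : Fin β → Fin n → Ω), ev (Φ' m) v = ev (Φ m) v := by
    intro m v
    unfold ev
    rw [aeval_map_algebraMap]
  obtain ⟨Ψ, hΨ1, hΨ2⟩ := ul_poly Φ' (fun b => (t b : ℕ)) (by
    filter_upwards [ht'] with m hm
    rw [← hm]
    exact fun s hs j => hMH m s (support_map_subset _ _ hs) j)
  let iA : Algebra (UL K) (UL Ω) := (mU (algebraMap K Ω)).toAlgebra
  have iT : IsScalarTower K (UL K) (UL Ω) := by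
    refine IsScalarTower.of_algebraMap_eq' ?_
    ext a
    rfl
  refine ⟨UL Ω, inferInstance, inferInstance, iA, iT, 0, gp (fun _ => P0'), Ψ, _, hΨ1, ?_, ?_⟩
  · have h1 := hΨ2 (fun _ => vc P0')
    intro h2
    have h3 : pi Ω (fun m => ev (Φ' m) (vc P0')) = 0 := h1.symm.trans h2
    rw [pi_zero] at h3
    obtain ⟨m, hm⟩ := h3.exists
    rw [hev, hP0'] at hm
    refine hgen (Φ m) (τ m) (hMH m) ?_ hm
    obtain ⟨F, iF, iKF, Q, hQ⟩ := hNZ m
    exact ⟨F, iF, iKF, vc Q, fun b => ⟨Q b, rfl⟩, hQ⟩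
  · rintro _ ⟨P, rfl, hP⟩
    rw [add_zero]
    have h1 := hΨ2 (fun m => vc (mp (Algebra.ofId K Ω) (P m)))
    refine Eq.trans ?_ (h1.trans ?_)
    · rfl
    · rw [pi_zero]
      filter_upwards [hP] with m hm
      rw [hev]
      have h2 := ev_hom (Algebra.ofId K Ω) (Φ m) (vc (P m))
      refine Eq.trans ?_ (h2.trans ?_)
      · rfl
      · rw [hv m _ hm, map_zero]

end form

end Pool.Agent.J4H27.ML
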