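import Pool.Agent.J4H27.ML.Pts

/-!
# Specialisation of points and stabilisers of closed subsets
-/

set_option autoImplicit false
set_option linter.unusedSectionVars false

open MvPolynomial Pool.Agent.TH954.X Pool.Agent.TH954.Z

namespace Pool.Agent.J4H27.ML

section expd

variable {k F : Type} [Field k] [Field F] [Algebra k F] {ι : Type} [Fintype ι] {n : ℕ}

/-- expansion of a form over an extension field -/
lemma exp (U : Set (ι → Fin n → k)) {Φ : MvPolynomial (ι × Fin n) F} {δ : ι → ℕ} (hΦ : MH δ Φ)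
    (hU : ∀ u ∈ U, ev Φ (fun j c => algebraMap k F (u j c)) = 0) (y : ι → Fin n → F)
    (h : ∀ Ψ : MvPolynomial (ι × Fin n) k, MH δ Ψ → (∀ u ∈ U, ev Ψ u = 0) → ev Ψ y = 0) :
    ev Φ y = 0 := by
  classical
  let b := Module.Basis.ofVectorSpace k F
  let G := fun α => ∑ m ∈ Φ.support, monomial m (b.repr (coeff m Φ) α)
  have hG : ∀ α, MH δ (G α) := by
    intro α
    refine MH_sum _ _ _ fun m hm => ?_
    intro m' hm' j
    have h2 := Finset.mem_of_subset support_monomial_subset hm'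
    rw [Finset.mem_singleton] at h2
    rw [h2]
    exact hΦ m hm j
  let T := Φ.support.biUnion (fun m => (b.repr (coeff m Φ)).support)
  have hco : ∀ m ∈ Φ.support, coeff m Φ = ∑ α ∈ T, algebraMap k F (b.repr (coeff m Φ) α) * b α := by
    intro m hm
    conv_lhs => rw [← b.linearCombination_repr (coeff m Φ)]
    rw [Finsupp.linearCombination_apply, Finsupp.sum_of_support_subset (s := T)]
    · refine Finset.sum_congr rfl fun α _ => ?_
      rw [Algebra.smul_def]
    · intro α hα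
      exact Finset.mem_biUnion.2 ⟨m, hm, hα⟩
    · intro α _
      rw [zero_smul]
  have hevG : ∀ α (z : ι → Fin n → F), ev (G α) z =
      ∑ m ∈ Φ.support, algebraMap k F (b.repr (coeff m Φ) α) * ∏ p : ι × Fin n, z p.1 p.2 ^ m p := by
    intro α z
    unfold ev
    simp only [G, map_sum, aeval_monomial]
    refine Finset.sum_congr rfl fun m _ => ?_
    rw [Finsupp.prod_fintype _ _ (fun _ => pow_zero _)]
  have hev : ∀ z : ι → Fin n → F, ev Φ z = ∑ α ∈ T, ev (G α) z * b α := by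
    intro z
    rw [ev_expand Φ z]
    simp_rw [hevG, Finset.sum_mul]
    rw [Finset.sum_comm]
    refine Finset.sum_congr rfl fun m hm => ?_
    rw [Algebra.algebraMap_self, RingHom.id_apply]
    conv_lhs => rw [hco m hm, Finset.sum_mul]
    refine Finset.sum_congr rfl fun α _ => ?_
    ring
  have hUG : ∀ α ∈ T, ∀ u ∈ U, ev (G α) u = 0 := by
    intro α hα u hu
    have h1 := hev (fun j c => algebraMap k F (u j c))
    rw [hU u hu] at h1
    have h2 : ∀ α, ev (G α) (fun j c => algebraMap k F (u j c)) = algebraMap k F (ev (G α) u) := by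
      intro α
      unfold ev
      have h3 := MvPolynomial.comp_aeval_apply (f := fun p : ι × Fin n => u p.1 p.2)
        (Algebra.ofId k F) (G α)
      exact h3.symm
    simp_rw [h2] at h1
    have h4 := linearIndependent_iff'.1 b.linearIndependent T (fun α => ev (G α) u) (by
      rw [h1]
      refine Finset.sum_congr rfl fun α _ => ?_
      rw [Algebra.smul_def])
    exact h4 α hα
  rw [hev y]
  refine Finset.sum_eq_zero fun α hα => ?_
  rw [h (G α) (hG α) (hUG α hα), zero_mul]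

end expd

section lift

variable {K : Type} [Field K] {n β : ℕ} {A : Fin β → AbV K n}

/-- a point with coordinates in a subfield -/
lemma lift_pt {F1 F2 : Type} [Field F1] [Algebra K F1] [Field F2] [Algebra K F2]
    (φ : F1 →ₐ[K] F2) (P : Bp A F2) (h : ∀ b c, ∃ x, φ x = (P b).1 c) :
    ∃ P0 : Bp A F1, mp φ P0 = P := by
  choose x hx using h
  have hx' : ∀ b, (fun c => φ (x b c)) = (P b).1 := fun b => funext fun c => hx b c
  refine ⟨fun b => ⟨x b, ?_, fun i => ?_⟩, funext fun b => Subtype.ext (hx' b)⟩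
  · obtain ⟨i, hi, hj⟩ := (P b).2.1
    have hinj : Function.Injective (fun a => φ a) := φ.injective
    refine ⟨i, hinj ?_, fun j hj' => hinj ?_⟩
    · beta_reduce
      rw [map_one, hx, hi]
    · beta_reduce
      rw [map_zero, hx, hj j hj']
  · apply φ.injective
    rw [map_zero, ← (P b).2.2 i, ← hx' b]
    exact (MvPolynomial.comp_aeval_apply (f := x b) φ _)

end lift

section spec

variable {K k : Type} [Field K] [Field k] [Algebra K k] {n β : ℕ}

/-- the form `Ψ` at the sum of two points, row `j0`, as a polynomial in the coordinates -/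
noncomputable def W2 (A : Fin β → AbV K n) (j0 : Fin β → Fin n)
    (Ψ : MvPolynomial (Fin β × Fin n) k) : MvPolynomial ((Fin β × Fin n) ⊕ (Fin β × Fin n)) k :=
  aeval (fun p : Fin β × Fin n => aeval (fun q : Fin 2 × Fin n =>
    (X (if q.1 = 0 then Sum.inl (p.1, q.2) else Sum.inr (p.1, q.2)) :
      MvPolynomial ((Fin β × Fin n) ⊕ (Fin β × Fin n)) k)) ((A p.1).Λ p.2 (j0 p.1))) Ψ

lemma ev_W2 {A : Fin β → AbV K n} {S : Type} [Field S] [Algebra K S] [Algebra k S]
    [IsScalarTower K k S] (P Q : Bp A S) : ∃ s : Fin β → S, (∀ b, s b ≠ 0) ∧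
    ∀ (j0 : Fin β → Fin n) (Ψ : MvPolynomial (Fin β × Fin n) k) (δ : Fin β → ℕ), MH δ Ψ →
      aeval (Sum.elim (fun p : Fin β × Fin n => (P p.1).1 p.2) (fun p => (Q p.1).1 p.2))
        (W2 A j0 Ψ) =
        (∏ b, (s b * ((P - Q) b).1 (j0 b)) ^ δ b) * ev Ψ (vc (P + Q)) := by
  choose s hs h using fun b => (A b).Λ_spec S (P b) (Q b)
  refine ⟨s, hs, fun j0 Ψ δ hΨ => ?_⟩
  set z : (Fin β × Fin n) ⊕ (Fin β × Fin n) → S :=
    Sum.elim (fun p : Fin β × Fin n => (P p.1).1 p.2) (fun p => (Q p.1).1 p.2) with hz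
  have h1 : aeval z (W2 A j0 Ψ) = ev Ψ (fun b i => ev ((A b).Λ i (j0 b)) ![(P b).1, (Q b).1]) := by
    unfold W2
    have e1 := MvPolynomial.comp_aeval_apply (f := fun p : Fin β × Fin n =>
      aeval (fun q : Fin 2 × Fin n =>
        (X (if q.1 = 0 then Sum.inl (p.1, q.2) else Sum.inr (p.1, q.2)) :
          MvPolynomial ((Fin β × Fin n) ⊕ (Fin β × Fin n)) k)) ((A p.1).Λ p.2 (j0 p.1)))
      (aeval z : MvPolynomial ((Fin β × Fin n) ⊕ (Fin β × Fin n)) k →ₐ[k] S) Ψ
    refine e1.trans ?_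
    unfold ev
    congr 1
    congr 1
    funext p
    have e2 := MvPolynomial.comp_aeval_apply (f := fun q : Fin 2 × Fin n =>
        (X (if q.1 = 0 then Sum.inl (p.1, q.2) else Sum.inr (p.1, q.2)) :
          MvPolynomial ((Fin β × Fin n) ⊕ (Fin β × Fin n)) k))
      ((aeval z : MvPolynomial ((Fin β × Fin n) ⊕ (Fin β × Fin n)) k →ₐ[k] S).restrictScalars K)
      ((A p.1).Λ p.2 (j0 p.1))
    refine e2.trans ?_
    congr 1
    congr 1
    funext q
    obtain ⟨l, e⟩ := q
    fin_cases l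
    · simp [hz]
    · simp [hz]
  rw [h1]
  have h2 : (fun b i => ev ((A b).Λ i (j0 b)) ![(P b).1, (Q b).1]) =
      fun b => (s b * ((P - Q) b).1 (j0 b)) • vc (P + Q) b := by
    funext b i
    refine (h b i (j0 b)).trans ?_
    rw [Pi.smul_apply, smul_eq_mul]
    have h3 : vc (P + Q) b i = (((A b).grp S).add (P b) (Q b)).1 i := rfl
    have h4 : ((P - Q) b).1 (j0 b) = (((A b).grp S).sub (P b) (Q b)).1 (j0 b) := rfl
    rw [h3, h4]
    ring
  rw [h2, ev_smul hΨ]

/-- specialisation to algebraic values -/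
lemma exists_spec {L F : Type} [Field L] [Field F] [Algebra k L] [Algebra k F] [IsAlgClosed F]
    (Y : Set L) (hY : Y.Finite) :
    ∃ σ : Algebra.adjoin k Y →ₐ[k] F, ∀ r, IsAlgebraic k (σ r) := by
  have hft : Algebra.FiniteType k (Algebra.adjoin k Y) :=
    (Subalgebra.fg_iff_finiteType _).1 ⟨hY.toFinset, by rw [Set.Finite.coe_toFinset]⟩
  obtain ⟨M, hM⟩ := Ideal.exists_maximal (Algebra.adjoin k Y)
  let _ := Ideal.Quotient.field M
  have h1 : Algebra.FiniteType k ((Algebra.adjoin k Y) ⧸ M) :=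
    Algebra.FiniteType.of_surjective (Ideal.Quotient.mkₐ k M) (Ideal.Quotient.mkₐ_surjective k M)
  have h2 : Module.Finite k ((Algebra.adjoin k Y) ⧸ M) :=
    finite_of_finite_type_of_isJacobsonRing k _
  have h3 : Algebra.IsAlgebraic k ((Algebra.adjoin k Y) ⧸ M) := inferInstance
  let τ : ((Algebra.adjoin k Y) ⧸ M) →ₐ[k] F := IsAlgClosed.lift
  refine ⟨τ.comp (Ideal.Quotient.mkₐ k M), fun r => ?_⟩
  rw [AlgHom.comp_apply]
  exact (h3.isAlgebraic _).algHom τ

variable {L F : Type} [Field L] [Field F] [Algebra K L] [Algebra K F] [Algebra k L] [Algebra k F]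
  [IsScalarTower K k L] [IsScalarTower K k F] {A : Fin β → AbV K n}

/-- the coordinates of a point -/
def co (v : Bp A L) : Set L := Set.range (fun p : Fin β × Fin n => (v p.1).1 p.2)

lemma mem_co (v : Bp A L) (b : Fin β) (c : Fin n) :
    (v b).1 c ∈ Algebra.adjoin k (co v) := Algebra.subset_adjoin ⟨(b, c), rfl⟩

/-- the specialised point -/
noncomputable def spp (v : Bp A L) (σ : Algebra.adjoin k (co v) →ₐ[k] F) : Bp A F := fun b =>
  ⟨fun c => σ ⟨(v b).1 c, mem_co v b c⟩, by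
    obtain ⟨i, hi, hj⟩ := (v b).2.1
    refine ⟨⟨i, ?_, fun j hj' => ?_⟩, fun m => ?_⟩
    · have : (⟨(v b).1 i, mem_co v b i⟩ : Algebra.adjoin k (co v)) = 1 := Subtype.ext hi
      beta_reduce
      rw [this, map_one]
    · have : (⟨(v b).1 j, mem_co v b j⟩ : Algebra.adjoin k (co v)) = 0 := Subtype.ext (hj j hj')
      beta_reduce
      rw [this, map_zero]
    · have h1 : aeval (fun c => (⟨(v b).1 c, mem_co v b c⟩ : Algebra.adjoin k (co v)))
          ((A b).eqn m) = 0 := by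
        apply Subtype.ext
        have h2 := MvPolynomial.comp_aeval_apply
          (f := fun c => (⟨(v b).1 c, mem_co v b c⟩ : Algebra.adjoin k (co v)))
          ((Algebra.adjoin k (co v)).val.restrictScalars K) ((A b).eqn m)
        exact h2.trans ((v b).2.2 m)
      have h2 := MvPolynomial.comp_aeval_apply
        (f := fun c => (⟨(v b).1 c, mem_co v b c⟩ : Algebra.adjoin k (co v)))
        (σ.restrictScalars K) ((A b).eqn m)
      rw [h1, map_zero] at h2
      exact h2.symm⟩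

lemma spec_zero (v : Bp A L) (σ : Algebra.adjoin k (co v) →ₐ[k] F) (t : Bp A k)
    {Ψ : MvPolynomial (Fin β × Fin n) k} {δ : Fin β → ℕ} (hΨ : MH δ Ψ)
    (h : ev Ψ (vc (mp (IsScalarTower.toAlgHom K k L) t + v)) = 0) :
    ev Ψ (vc (mp (IsScalarTower.toAlgHom K k F) t + spp v σ)) = 0 := by
  obtain ⟨s, -, h1⟩ := ev_W2 (k := k) (mp (IsScalarTower.toAlgHom K k L) t) v
  obtain ⟨s', hs', h2⟩ := ev_W2 (k := k) (mp (IsScalarTower.toAlgHom K k F) t) (spp v σ)
  choose j0 hj0 _ using fun b => ((mp (IsScalarTower.toAlgHom K k F) t - spp v σ) b).2.1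
  have h3 := h1 j0 Ψ δ hΨ
  rw [h, mul_zero] at h3
  have h4 := h2 j0 Ψ δ hΨ
  let z : (Fin β × Fin n) ⊕ (Fin β × Fin n) → Algebra.adjoin k (co v) :=
    Sum.elim (fun p => algebraMap k _ ((t p.1).1 p.2)) (fun p => ⟨(v p.1).1 p.2, mem_co v p.1 p.2⟩)
  have h5 : aeval z (W2 A j0 Ψ) = 0 := by
    apply Subtype.ext
    have h6 := MvPolynomial.comp_aeval_apply (f := z) (Algebra.adjoin k (co v)).val (W2 A j0 Ψ)
    refine h6.trans (Eq.trans ?_ h3)
    congr 1
    congr 1
    funext p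
    rcases p with p | p <;> rfl
  have h6 := MvPolynomial.comp_aeval_apply (f := z) σ (W2 A j0 Ψ)
  rw [h5, map_zero] at h6
  have h7 : (fun p => σ (z p)) = Sum.elim
      (fun p : Fin β × Fin n => (mp (IsScalarTower.toAlgHom K k F) t p.1).1 p.2)
      (fun p => (spp v σ p.1).1 p.2) := by
    funext p
    rcases p with p | p
    · exact σ.commutes _
    · rfl
  rw [h7] at h6
  rw [← h6] at h4
  rcases mul_eq_zero.1 h4.symm with h8 | h8
  · exfalso
    rw [Finset.prod_eq_zero_iff] at h8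
    obtain ⟨b, -, hb⟩ := h8
    rw [hj0 b, mul_one] at hb
    exact pow_ne_zero _ (hs' b) hb
  · exact h8

end spec

section alg

variable {K k L F : Type} [Field K] [Field k] [Field L] [Field F] [Algebra K k] [Algebra K L]
  [Algebra K F] [Algebra k L] [Algebra k F] [Algebra L F] [IsScalarTower K k L]
  [IsScalarTower K k F] [IsScalarTower K L F] [IsScalarTower k L F] {n β : ℕ}
  {A : Fin β → AbV K n}

lemma dens_up {S0 S : Set (Bp A L)}
    (d0 : ∀ (Φ : MvPolynomial (Fin β × Fin n) L) (δ : Fin β → ℕ), MH δ Φ → Van S0 Φ → Van S Φ) :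
    Zc (mp (IsScalarTower.toAlgHom K L F) '' S) ⊆ Zc (mp (IsScalarTower.toAlgHom K L F) '' S0) := by
  refine Zc_Zc ?_
  rintro _ ⟨s, hs, rfl⟩ Φ δ hΦ hV
  refine exp (k := L) (vc '' S0) hΦ ?_ _ ?_
  · rintro _ ⟨z, hz, rfl⟩
    exact hV _ ⟨z, hz, rfl⟩
  · intro Ψ hΨ h
    have h1 : ev Ψ (vc s) = 0 := d0 Ψ δ hΨ (fun z hz => h _ ⟨z, hz, rfl⟩) s hs
    have h2 := MvPolynomial.comp_aeval_apply (f := fun p : Fin β × Fin n => vc s p.1 p.2)
      (Algebra.ofId L F) Ψ
    have h3 : aeval (fun p : Fin β × Fin n => vc s p.1 p.2) Ψ = 0 := h1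
    rw [h3, map_zero] at h2
    exact h2.symm

theorem alg [IsAlgClosed F] (S0 S1 S : Set (Bp A L)) (x y : Bp A L) (h0 : S0 ⊆ S) (h1 : S1 ⊆ S)
    (hx : ∀ z ∈ S0, ∃ t : Bp A k, mp (IsScalarTower.toAlgHom K k L) t = z - x)
    (hy : ∀ z ∈ S1, ∃ t : Bp A k, mp (IsScalarTower.toAlgHom K k L) t = z - y)
    (d0 : ∀ (Φ : MvPolynomial (Fin β × Fin n) L) (δ : Fin β → ℕ), MH δ Φ → Van S0 Φ → Van S Φ)
    (d1 : ∀ (Φ : MvPolynomial (Fin β × Fin n) L) (δ : Fin β → ℕ), MH δ Φ → Van S1 Φ → Van S Φ) :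
    ∃ y' : Bp A F, (∀ b c, IsAlgebraic k ((y' b).1 c)) ∧
      ∀ p ∈ Zc (mp (IsScalarTower.toAlgHom K L F) '' S),
        p - (mp (IsScalarTower.toAlgHom K L F) (y - x) - y') ∈
          Zc (mp (IsScalarTower.toAlgHom K L F) '' S) := by
  set ψ := IsScalarTower.toAlgHom K L F with hψ
  set v := y - x with hv
  obtain ⟨σ, hσ⟩ := exists_spec (k := k) (F := F) (co v) (Set.finite_range _)
  refine ⟨spp v σ, fun b c => hσ _, fun p hp => ?_⟩
  have hd0 := dens_up (F := F) (S0 := S0) (S := S) d0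
  have hd1 := dens_up (F := F) (S0 := S1) (S := S) d1
  -- the key inclusion
  have key : (fun R => R + (mp ψ (-x) + (-mp ψ v + spp v σ))) '' (mp ψ '' S1) ⊆
      Zc ((fun R => R + mp ψ (-x)) '' (mp ψ '' S0)) := by
    rintro _ ⟨_, ⟨z, hz, rfl⟩, rfl⟩
    obtain ⟨t, ht⟩ := hy z hz
    have e1 : mp ψ z + (mp ψ (-x) + (-mp ψ v + spp v σ)) =
        mp (IsScalarTower.toAlgHom K k F) t + spp v σ := by
      have e2 : mp (IsScalarTower.toAlgHom K k F) t = mp ψ (z - y) := by
        rw [← ht]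
        funext b
        refine Subtype.ext (funext fun c => ?_)
        exact IsScalarTower.algebraMap_apply k L F _
      rw [e2]
      have e3 : mp ψ (z - y) = mp ψ z + (mp ψ (-x) + (-mp ψ v)) := by
        simp only [← mpH_apply]
        rw [← map_neg, ← map_add, ← map_add]
        congr 1
        rw [hv]
        abel
      rw [e3]
      abel
    beta_reduce
    rw [e1]
    intro Φ δ hΦ hV
    refine exp (k := k) {u | ∃ t0 : Bp A k, u = vc t0 ∧
      ∃ z0 ∈ S0, mp (IsScalarTower.toAlgHom K k L) t0 = z0 - x} hΦ ?_ _ ?_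
    · rintro _ ⟨t0, rfl, z0, hz0, h3⟩
      have h4 := hV (mp ψ z0 + mp ψ (-x)) ⟨mp ψ z0, ⟨z0, hz0, rfl⟩, rfl⟩
      have h5 : mp ψ z0 + mp ψ (-x) = mp (IsScalarTower.toAlgHom K k F) t0 := by
        rw [← (mp_both ψ z0 (-x)).1, ← sub_eq_add_neg, ← h3]
        funext b
        refine Subtype.ext (funext fun c => ?_)
        exact (IsScalarTower.algebraMap_apply k L F _).symm
      rw [h5] at h4
      exact h4
    · intro Ψ hΨ hΨ0
      refine spec_zero v σ t hΨ ?_
      -- `Ψ` vanishes at `z - x`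
      have h6 : mp (IsScalarTower.toAlgHom K k L) t + v = z - x := by
        rw [ht, hv]
        abel
      rw [h6]
      -- the image of `Ψ` over `F`
      let Ψ' : MvPolynomial (Fin β × Fin n) F := MvPolynomial.map (algebraMap k F) Ψ
      have hΨ' : MH δ Ψ' := fun m hm j => hΨ m (support_map_subset _ _ hm) j
      have hevΨ : ∀ u : Fin β → Fin n → F, ev Ψ' u = ev Ψ u := by
        intro u
        unfold ev
        rw [aeval_def, aeval_def, eval₂_map]
        rfl
      have h7 : mp ψ z + mp ψ (-x) ∈ Zc ((fun R => R + mp ψ (-x)) '' (mp ψ '' S0)) := by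
        refine Zc_add ?_ _
        exact hd0 (sub_Zc _ ⟨z, h1 hz, rfl⟩)
      have h8 := h7 Ψ' δ hΨ' (by
        rintro _ ⟨_, ⟨z0, hz0, rfl⟩, rfl⟩
        obtain ⟨t0, ht0⟩ := hx z0 hz0
        have h9 := hΨ0 (vc t0) ⟨t0, rfl, z0, hz0, ht0⟩
        beta_reduce
        rw [← (mp_both ψ z0 (-x)).1, ← sub_eq_add_neg, ← ht0, hevΨ]
        have h10 := MvPolynomial.comp_aeval_apply (f := fun p : Fin β × Fin n => vc t0 p.1 p.2)
          (Algebra.ofId k F) Ψ
        have h11 : aeval (fun p : Fin β × Fin n => vc t0 p.1 p.2) Ψ = 0 := h9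
        rw [h11, map_zero] at h10
        refine Eq.trans ?_ h10.symm
        unfold ev
        congr 1
        congr 1
        funext p
        exact (IsScalarTower.algebraMap_apply k L F _).symm)
      rw [← (mp_both ψ z (-x)).1, ← sub_eq_add_neg, hevΨ] at h8
      have h12 : ev Ψ (vc (mp ψ (z - x))) = algebraMap L F (ev Ψ (vc (z - x))) := by
        have h13 := MvPolynomial.comp_aeval_apply
          (f := fun p : Fin β × Fin n => vc (z - x) p.1 p.2)
          ((IsScalarTower.toAlgHom k L F)) Ψ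
        exact h13.symm
      rw [h12, map_eq_zero] at h8
      exact h8
  have h2 : p + (mp ψ (-x) + (-mp ψ v + spp v σ)) ∈
      Zc ((fun R => R + mp ψ (-x)) '' (mp ψ '' S0)) := by
    have h3 := Zc_add (hd1 hp) (mp ψ (-x) + (-mp ψ v + spp v σ))
    exact Zc_Zc key h3
  have h4 := Zc_add h2 (mp ψ x)
  have h5 : (fun R => R + mp ψ x) '' ((fun R => R + mp ψ (-x)) '' (mp ψ '' S0)) ⊆ mp ψ '' S := by
    rintro _ ⟨_, ⟨_, ⟨z, hz, rfl⟩, rfl⟩, rfl⟩
    refine ⟨z, h0 hz, ?_⟩
    beta_reduce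
    rw [add_assoc, ← (mp_both ψ (-x) x).1, neg_add_cancel]
    have : mp ψ (0 : Bp A L) = 0 := (mpH ψ).map_zero
    rw [this, add_zero]
  have h6 := Zc_mono h5 h4
  have h7 : p + (mp ψ (-x) + (-mp ψ v + spp v σ)) + mp ψ x = p - (mp ψ v - spp v σ) := by
    have : mp ψ (-x) = - mp ψ x := (mpH ψ).map_neg x
    rw [this]
    abel
  rw [h7] at h6
  exact h6

end alg

end Pool.Agent.J4H27.ML
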