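import Pool.Agent.J4H27.ML.Stb

/-!
# Ultrapowers
-/

set_option autoImplicit false
set_option linter.unusedSectionVars false

open MvPolynomial Pool.Agent.TH954.X Pool.Agent.TH954.Z Filter

namespace Pool.Agent.J4H27.ML

/-- a fixed nonprincipal ultrafilter -/
noncomputable abbrev UF : Ultrafilter ℕ := Filter.hyperfilter ℕ

/-- the ultrapower of a field -/
def UL (F : Type) : Type := Filter.Germ (UF : Filter ℕ) F

noncomputable instance (F : Type) [Field F] : Field (UL F) :=
  inferInstanceAs (Field (Filter.Germ (UF : Filter ℕ) F))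

/-- the class of a sequence -/
noncomputable def pi (F : Type) [Field F] : (ℕ → F) →+* UL F :=
  Filter.Germ.coeRingHom (UF : Filter ℕ)

section

variable {F : Type} [Field F]

lemma pi_eq (f g : ℕ → F) : pi F f = pi F g ↔ ∀ᶠ m in (UF : Filter ℕ), f m = g m :=
  Filter.Germ.coe_eq

lemma pi_surj : Function.Surjective (pi F) := by
  intro a
  exact Filter.Germ.inductionOn a (fun f => ⟨f, rfl⟩)

lemma pi_zero (f : ℕ → F) : pi F f = 0 ↔ ∀ᶠ m in (UF : Filter ℕ), f m = 0 := by
  rw [← map_zero (pi F), pi_eq]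
  rfl

lemma pi_one (f : ℕ → F) : pi F f = 1 ↔ ∀ᶠ m in (UF : Filter ℕ), f m = 1 := by
  rw [← map_one (pi F), pi_eq]
  rfl

noncomputable instance {K : Type} [Field K] [Algebra K F] : Algebra K (UL F) :=
  ((pi F).comp (algebraMap K (ℕ → F))).toAlgebra

lemma algU {K : Type} [Field K] [Algebra K F] (a : K) :
    algebraMap K (UL F) a = pi F (fun _ => algebraMap K F a) := rfl

/-- the class of a sequence, as an algebra map -/
noncomputable def piA (K F : Type) [Field K] [Field F] [Algebra K F] : (ℕ → F) →ₐ[K] UL F where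
  toRingHom := pi F
  commutes' := fun _ => rfl

lemma piA_apply {K : Type} [Field K] [Algebra K F] (f : ℕ → F) : piA K F f = pi F f := rfl

/-- the functoriality of the ultrapower -/
noncomputable def mU {F1 F2 : Type} [Field F1] [Field F2] (φ : F1 →+* F2) : UL F1 →+* UL F2 where
  toFun := Filter.Germ.map φ
  map_one' := by
    change Filter.Germ.map φ (((fun _ => 1 : ℕ → F1) : Filter.Germ (UF : Filter ℕ) F1)) = _
    rw [Filter.Germ.map_coe]
    refine Filter.Germ.coe_eq.2 (Eventually.of_forall fun m => ?_)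
    exact map_one φ
  map_zero' := by
    change Filter.Germ.map φ (((fun _ => 0 : ℕ → F1) : Filter.Germ (UF : Filter ℕ) F1)) = _
    rw [Filter.Germ.map_coe]
    refine Filter.Germ.coe_eq.2 (Eventually.of_forall fun m => ?_)
    exact map_zero φ
  map_mul' := by
    intro a b
    refine Filter.Germ.inductionOn₂ a b (fun f g => ?_)
    refine Filter.Germ.coe_eq.2 (Eventually.of_forall fun m => ?_)
    exact map_mul φ _ _
  map_add' := by
    intro a b
    refine Filter.Germ.inductionOn₂ a b (fun f g => ?_)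
    refine Filter.Germ.coe_eq.2 (Eventually.of_forall fun m => ?_)
    exact map_add φ _ _

lemma mU_pi {F1 F2 : Type} [Field F1] [Field F2] (φ : F1 →+* F2) (f : ℕ → F1) :
    mU φ (pi F1 f) = pi F2 (fun m => φ (f m)) := rfl

/-- a sequence representing an element -/
noncomputable def rep (a : UL F) : ℕ → F := (pi_surj a).choose

lemma pi_rep (a : UL F) : pi F (rep a) = a := (pi_surj a).choose_spec

lemma finU {X : Type} [Finite X] (f : ℕ → X) : ∃ x, ∀ᶠ m in (UF : Filter ℕ), f m = x := by
  obtain ⟨x, hx⟩ := (UF.map f).eq_pure_of_finite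
  refine ⟨x, ?_⟩
  have h1 : {x} ∈ (UF.map f) := by
    rw [hx]
    exact Set.mem_singleton x
  exact h1

end

section eval

variable {K : Type} [Field K] {F : Type} [Field F] [Algebra K F] {σ : Type}

lemma aeval_pi (f : MvPolynomial σ K) (v : ℕ → σ → F) :
    aeval (fun p => pi F (fun m => v m p)) f = pi F (fun m => aeval (v m) f) := by
  have h1 := MvPolynomial.comp_aeval_apply (f := fun p m => v m p) (piA K F) f
  refine (Eq.symm h1).trans ?_
  rw [piA_apply]
  congr 1
  funext m
  have h2 := MvPolynomial.comp_aeval_apply (f := fun p m => v m p)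
    (Pi.evalAlgHom K (fun _ : ℕ => F) m) f
  exact h2

variable {ι : Type} {n : ℕ}

lemma ev_pi (f : MvPolynomial (ι × Fin n) K) (v : ℕ → ι → Fin n → F) :
    ev f (fun j c => pi F (fun m => v m j c)) = pi F (fun m => ev f (v m)) := by
  unfold ev
  exact aeval_pi f (fun m p => v m p.1 p.2)

/-- a sequence of polynomials representing a polynomial over the ultrapower -/
noncomputable def rp (Φ : MvPolynomial σ (UL F)) (m : ℕ) : MvPolynomial σ F :=
  ∑ s ∈ Φ.support, monomial s (rep (coeff s Φ) m)

lemma MH_rp {Φ : MvPolynomial (ι × Fin n) (UL F)} {δ : ι → ℕ} (hΦ : MH δ Φ) (m : ℕ) :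
    MH δ (rp Φ m) := by
  classical
  intro s hs j
  refine hΦ s ?_ j
  by_contra h
  rw [mem_support_iff] at hs
  apply hs
  unfold rp
  rw [coeff_sum]
  refine Finset.sum_eq_zero (fun t ht => ?_)
  rw [coeff_monomial, if_neg]
  rintro rfl
  exact h ht

lemma ev_rp [Fintype ι] (Φ : MvPolynomial (ι × Fin n) (UL F)) (v : ℕ → ι → Fin n → F) :
    ev Φ (fun j c => pi F (fun m => v m j c)) = pi F (fun m => ev (rp Φ m) (v m)) := by
  classical
  have h1 : (fun m => ev (rp Φ m) (v m)) = ∑ s ∈ Φ.support, rep (coeff s Φ) *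
      ∏ p : ι × Fin n, (fun m => v m p.1 p.2) ^ s p := by
    funext m
    unfold ev rp
    rw [map_sum, Finset.sum_apply]
    refine Finset.sum_congr rfl (fun s _ => ?_)
    rw [aeval_monomial, Finsupp.prod_fintype _ _ (fun p => pow_zero _), Pi.mul_apply,
      Finset.prod_apply]
    rfl
  rw [h1, map_sum]
  unfold ev
  rw [aeval_def, eval₂_eq']
  refine Finset.sum_congr rfl (fun s _ => ?_)
  rw [map_mul, map_prod, pi_rep]
  simp only [map_pow]
  rfl

end eval

section pts

variable {K : Type} [Field K] {n β : ℕ} {A : Fin β → AbV K n} {F : Type} [Field F] [Algebra K F]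

/-- a sequence of points gives a point over the ultrapower -/
noncomputable def gp (P : ℕ → Bp A F) : Bp A (UL F) := fun b =>
  ⟨fun c => pi F (fun m => (P m b).1 c), by
    choose i hi hj using fun m => (P m b).2.1
    obtain ⟨i0, hi0⟩ := finU i
    refine ⟨i0, ?_, fun j hj' => ?_⟩
    · rw [pi_one]
      filter_upwards [hi0] with m hm
      rw [← hm]
      exact hi m
    · rw [pi_zero]
      filter_upwards [hi0] with m hm
      exact hj m j (by rw [hm]; exact hj'), fun i => by
    rw [aeval_pi ((A b).eqn i) (fun m => (P m b).1), pi_zero]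
    exact Eventually.of_forall fun m => (P m b).2.2 i⟩

lemma gp_val (P : ℕ → Bp A F) (b : Fin β) (c : Fin n) :
    (gp P b).1 c = pi F (fun m => (P m b).1 c) := rfl

lemma gp_eq (P Q : ℕ → Bp A F) : gp P = gp Q ↔ ∀ᶠ m in (UF : Filter ℕ), P m = Q m := by
  constructor
  · intro h
    have h1 : ∀ b, ∀ c, ∀ᶠ m in (UF : Filter ℕ), (P m b).1 c = (Q m b).1 c := by
      intro b c
      rw [← pi_eq]
      exact congrFun (congrArg Subtype.val (congrFun h b)) c
    filter_upwards [eventually_all.2 fun b => eventually_all.2 (h1 b)] with m hm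
    exact funext fun b => Subtype.ext (funext fun c => hm b c)
  · intro h
    refine funext fun b => Subtype.ext (funext fun c => ?_)
    rw [gp_val, gp_val, pi_eq]
    filter_upwards [h] with m hm
    rw [hm]

lemma gp_both (P Q : ℕ → Bp A F) :
    gp (fun m => P m + Q m) = gp P + gp Q ∧ gp (fun m => P m - Q m) = gp P - gp Q := by
  have key : ∀ b, (gp (fun m => P m + Q m) b).1 = ((gp P + gp Q) b).1 ∧
      (gp (fun m => P m - Q m) b).1 = ((gp P - gp Q) b).1 := by
    intro b
    choose s hs h using fun m => (A b).Λ_spec F (P m b) (Q m b)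
    obtain ⟨s', hs', h'⟩ := (A b).Λ_spec (UL F) (gp P b) (gp Q b)
    refine rank1 (gp (fun m => P m + Q m) b).2.1 (gp (fun m => P m - Q m) b).2.1
      ((gp P + gp Q) b).2.1 ((gp P - gp Q) b).2.1 (s := pi F s) (s' := s') ?_ ?_
    · rw [Ne, pi_zero]
      intro h0
      obtain ⟨m, hm⟩ := h0.exists
      exact hs m hm
    · intro i j
      have h2 := h' i j
      have h3 : ev ((A b).Λ i j) ![(gp P b).1, (gp Q b).1] =
          pi F (fun m => ev ((A b).Λ i j) ![(P m b).1, (Q m b).1]) := by
        rw [← ev_pi]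
        congr 1
        funext l c
        fin_cases l <;> rfl
      have h4 : (fun m => ev ((A b).Λ i j) ![(P m b).1, (Q m b).1]) =
          s * ((fun m => ((P m + Q m) b).1 i) * (fun m => ((P m - Q m) b).1 j)) := by
        funext m
        exact h m i j
      rw [h4, map_mul, map_mul] at h3
      exact h3.symm.trans h2
  exact ⟨funext fun b => Subtype.ext (key b).1, funext fun b => Subtype.ext (key b).2⟩

/-- sequences of points, as a homomorphism -/
noncomputable def gpH : (ℕ → Bp A F) →+ Bp A (UL F) :=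
  AddMonoidHom.mk' gp (fun P Q => (gp_both P Q).1)

lemma gp_nsmul (N : ℕ) (P : ℕ → Bp A F) : gp (fun m => N • P m) = N • gp P :=
  (gpH (A := A) (F := F)).map_nsmul N P

lemma gp_re {γ : ℕ} (e : Fin γ ↪ Fin β) (P : ℕ → Bp A F) :
    re e (gp P) = gp (fun m => re e (P m)) := rfl

lemma ev_gp (Φ : MvPolynomial (Fin β × Fin n) (UL F)) (P : ℕ → Bp A F) :
    ev Φ (vc (gp P)) = pi F (fun m => ev (rp Φ m) (vc (P m))) :=
  ev_rp Φ (fun m => vc (P m))

end pts

end Pool.Agent.J4H27.ML
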